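import Pool.Agent.U319.FR.Stm

/-!
# Frog model on the rooted 4-ary tree, job VB: basic properties of the value function (helper780)
-/

set_option autoImplicit false

open scoped ENNReal
open Finset

namespace Pool.Agent.U319.FR.VBx

/-- Weights of the steps. -/
noncomputable def pr : Vx → Fin 5 → ℝ≥0∞
  | [], c => if c = 0 then 0 else 1 / 4
  | _ :: _, _ => 1 / 5

/-- Destinations. -/
def ds : Vx → Fin 5 → Vx
  | [], c => if h : c = 0 then [] else [c.pred h]
  | i :: p, c => if h : c = 0 then p else c.pred h :: i :: p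

/-- Rewards. -/
noncomputable def rd : Vx → Fin 5 → ℝ≥0∞
  | [], _ => 0
  | _ :: p, c => if c = 0 ∧ p = [] then 1 else 0

lemma pr_sum (u : Vx) : ∑ c, pr u c = 1 := by
  rcases u with _ | ⟨i, p⟩
  · rw [Fin.sum_univ_succ]
    simp only [pr, if_true, Fin.succ_ne_zero, if_false, zero_add, Finset.sum_const, card_univ,
      Fintype.card_fin, nsmul_eq_mul, one_div]
    exact ENNReal.mul_inv_cancel (by norm_num) (by norm_num)
  · simp only [pr, Finset.sum_const, card_univ, Fintype.card_fin, nsmul_eq_mul, one_div]
    exact ENNReal.mul_inv_cancel (by norm_num) (by norm_num)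

lemma rd_le (u : Vx) (c : Fin 5) : rd u c ≤ 1 := by
  rcases u with _ | ⟨i, p⟩
  · exact zero_le
  · change (if c = 0 ∧ p = [] then (1 : ℝ≥0∞) else 0) ≤ 1
    split_ifs
    · exact le_rfl
    · exact zero_le

lemma mv_eq (n : ℕ) (g : Cf → ℝ≥0∞) (u : Vx) (η : Cf) :
    mv n g u η = ∑ c, pr u c * (rd u c + g (arr n (ds u c) (rmv u η))) := by
  rcases u with _ | ⟨i, p⟩
  · rw [Fin.sum_univ_succ]
    simp [mv, pr, rd, ds]
  · rw [Fin.sum_univ_succ]
    simp [mv, pr, rd, ds]

lemma mv_mono (n : ℕ) {g g' : Cf → ℝ≥0∞} {η η' : Cf} (u : Vx)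
    (h : ∀ z, g (arr n z (rmv u η)) ≤ g' (arr n z (rmv u η'))) : mv n g u η ≤ mv n g' u η' := by
  rw [mv_eq, mv_eq]
  gcongr
  exact h _

lemma V_succ (n f : ℕ) (η : Cf) :
    V n (f + 1) η = ⨆ u : Vx, ⨆ _ : 0 < η.cnt u, mv n (V n f) u η := rfl

lemma le_V (n f : ℕ) (η : Cf) (u : Vx) (h : 0 < η.cnt u) : mv n (V n f) u η ≤ V n (f + 1) η := by
  rw [V_succ]
  exact le_iSup_of_le u (le_iSup_of_le h le_rfl)

lemma rmv_le {η η' : Cf} (u : Vx) (h : η.Le η') : (rmv u η).Le (rmv u η') :=
  ⟨fun z => Nat.sub_le_sub_right (h.1 z) _, h.2⟩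

lemma arr_le {η η' : Cf} (n : ℕ) (z : Vx) (h : η.Le η') : (arr n z η).Le (arr n z η') := by
  unfold arr
  by_cases h1 : n ≤ z.length
  · rw [if_pos h1, if_pos h1]
    exact h
  · rw [if_neg h1, if_neg h1]
    by_cases h2 : z ∈ η'.vis
    · rw [if_pos h2, if_pos (h.2 h2)]
      exact ⟨fun x => Nat.add_le_add_right (h.1 x) _, h.2⟩
    · rw [if_neg h2]
      by_cases h3 : z ∈ η.vis
      · rw [if_pos h3]
        refine ⟨fun x => Nat.add_le_add (h.1 x) ?_, Set.insert_subset h3 h.2⟩
        simp only [dl]
        split_ifs <;> omega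
      · rw [if_neg h3]
        exact ⟨fun x => Nat.add_le_add_right (h.1 x) _, Set.insert_subset_insert h.2⟩

lemma arr_cnt_le (n : ℕ) (z : Vx) (η : Cf) (x : Vx) : η.cnt x ≤ (arr n z η).cnt x := by
  unfold arr
  split_ifs
  · exact le_rfl
  · exact Nat.le_add_right _ _
  · exact Nat.le_add_right _ _

lemma rmv_cnt_ne {u w : Vx} (h : u ≠ w) (η : Cf) : (rmv w η).cnt u = η.cnt u := by
  simp [rmv, dl, h]

lemma arr_far {n : ℕ} {z : Vx} (h1 : n ≤ z.length) (η : Cf) : arr n z η = η := by
  unfold arr
  rw [if_pos h1]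

lemma arr_in {n : ℕ} {z : Vx} (h1 : ¬ n ≤ z.length) {η : Cf} (h : z ∈ η.vis) :
    arr n z η = ⟨fun x => η.cnt x + dl z 1 x, η.vis⟩ := by
  unfold arr
  rw [if_neg h1, if_pos h]

lemma arr_out {n : ℕ} {z : Vx} (h1 : ¬ n ≤ z.length) {η : Cf} (h : z ∉ η.vis) :
    arr n z η = ⟨fun x => η.cnt x + dl z 2 x, insert z η.vis⟩ := by
  unfold arr
  rw [if_neg h1, if_neg h]

lemma arr_comm (n : ℕ) (z z' : Vx) (η : Cf) : arr n z (arr n z' η) = arr n z' (arr n z η) := by
  by_cases h1 : n ≤ z.length
  · rw [arr_far h1, arr_far h1]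
  by_cases h2 : n ≤ z'.length
  · rw [arr_far h2, arr_far h2]
  by_cases hz : z = z'
  · rw [hz]
  have hz' : z' ≠ z := Ne.symm hz
  by_cases h3 : z ∈ η.vis <;> by_cases h4 : z' ∈ η.vis
  · rw [arr_in h2 h4, arr_in h1 h3, arr_in h1 (by exact h3), arr_in h2 (by exact h4)]
    ext x
    · exact Nat.add_right_comm _ _ _
    · exact Iff.rfl
  · rw [arr_out h2 h4, arr_in h1 h3, arr_in h1 (Set.mem_insert_of_mem _ h3),
      arr_out h2 (by exact h4)]
    ext x
    · exact Nat.add_right_comm _ _ _
    · exact Iff.rfl
  · rw [arr_in h2 h4, arr_out h1 h3, arr_out h1 (by exact h3),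
      arr_in h2 (Set.mem_insert_of_mem _ h4)]
    ext x
    · exact Nat.add_right_comm _ _ _
    · exact Iff.rfl
  · rw [arr_out h2 h4, arr_out h1 h3,
      arr_out h1 (by exact fun h => (Set.mem_insert_iff.1 h).elim hz h3),
      arr_out h2 (by exact fun h => (Set.mem_insert_iff.1 h).elim hz' h4)]
    ext x
    · exact Nat.add_right_comm _ _ _
    · change x ∈ insert z (insert z' η.vis) ↔ x ∈ insert z' (insert z η.vis)
      rw [Set.insert_comm]

lemma rmv_arr (n : ℕ) (u z : Vx) (η : Cf) (h : 0 < η.cnt u) :
    rmv u (arr n z η) = arr n z (rmv u η) := by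
  have h2 : ∀ (k : ℕ) (x : Vx), η.cnt x + dl z k x - dl u 1 x = η.cnt x - dl u 1 x + dl z k x := by
    intro k x
    by_cases hx : x = u
    · subst hx
      simp only [dl, if_true]
      omega
    · simp only [dl, if_neg hx]
      omega
  unfold arr
  by_cases h1 : n ≤ z.length
  · rw [if_pos h1, if_pos h1]
  · rw [if_neg h1, if_neg h1]
    by_cases h3 : z ∈ η.vis
    · rw [if_pos h3, if_pos (show z ∈ (rmv u η).vis from h3)]
      ext x
      · exact h2 1 x
      · rfl
    · rw [if_neg h3, if_neg (show z ∉ (rmv u η).vis from h3)]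
      ext x
      · exact h2 2 x
      · rfl

lemma rmv_comm (u w : Vx) (η : Cf) : rmv u (rmv w η) = rmv w (rmv u η) := by
  ext x
  · simp only [rmv]
    omega
  · rfl

lemma join_arr (n : ℕ) (w z : Vx) (η η' : Cf) (h : 0 < η.cnt w) :
    (arr n z (rmv w (η.join η'))).Le ((arr n z (rmv w η)).join η') := by
  have h2 : ∀ x : Vx, η.cnt x + η'.cnt x - dl w 1 x = η.cnt x - dl w 1 x + η'.cnt x := by
    intro x
    by_cases hx : x = w
    · subst hx
      simp only [dl, if_true]
      omega
    · simp only [dl, if_neg hx]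
      omega
  unfold arr
  by_cases h1 : n ≤ z.length
  · rw [if_pos h1, if_pos h1]
    exact ⟨fun x => (h2 x).le, Set.Subset.rfl⟩
  · rw [if_neg h1, if_neg h1]
    by_cases h3 : z ∈ η.vis
    · rw [if_pos (show z ∈ (rmv w (η.join η')).vis from Or.inl h3),
        if_pos (show z ∈ (rmv w η).vis from h3)]
      refine ⟨fun x => ?_, Set.Subset.rfl⟩
      have := h2 x
      simp only [Cf.join, rmv] at this ⊢
      omega
    · rw [if_neg (show z ∉ (rmv w η).vis from h3)]
      by_cases h4 : z ∈ η'.vis
      · rw [if_pos (show z ∈ (rmv w (η.join η')).vis from Or.inr h4)]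
        refine ⟨fun x => ?_, ?_⟩
        · have := h2 x
          have h5 : dl z 1 x ≤ dl z 2 x := by
            simp only [dl]
            split_ifs <;> omega
          simp only [Cf.join, rmv] at this ⊢
          omega
        · intro x hx
          rcases hx with hx | hx
          · rcases hx with hx | hx
            · rw [hx]
              exact Or.inr h4
            · exact Or.inl hx
          · exact Or.inr hx
      · rw [if_neg (show z ∉ (rmv w (η.join η')).vis from fun h => h.elim h3 h4)]
        refine ⟨fun x => ?_, ?_⟩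
        · have := h2 x
          simp only [Cf.join, rmv] at this ⊢
          omega
        · intro x hx
          rcases hx with hx | hx
          · rcases hx with hx | hx
            · exact Or.inl hx
            · exact Or.inr (Or.inl hx)
          · exact Or.inr (Or.inr hx)

lemma join_comm' (η η' : Cf) : η.join η' = η'.join η := by
  ext x
  · simp only [Cf.join]
    omega
  · simp only [Cf.join, Set.mem_union]
    tauto

end Pool.Agent.U319.FR.VBx

namespace Pool.Agent.U319.FR

open VBx

theorem vfin : S_VFIN := by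
  intro n f
  induction f with
  | zero => intro η; simp [V]
  | succ f ih =>
    intro η
    rw [V_succ]
    refine iSup_le fun u => iSup_le fun _ => ?_
    rw [mv_eq]
    calc ∑ c, pr u c * (rd u c + V n f (arr n (ds u c) (rmv u η)))
        ≤ ∑ c, pr u c * (1 + f) := by
          gcongr with c _
          · exact rd_le u c
          · exact ih _
      _ = ((f + 1 : ℕ) : ℝ≥0∞) := by
          rw [← Finset.sum_mul, pr_sum, one_mul]
          push_cast
          rw [add_comm]

theorem vup : S_VUP := by
  intro n f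
  induction f with
  | zero => intro η; simp [V]
  | succ f ih =>
    intro η
    rw [V_succ, V_succ n (f + 1)]
    gcongr with u hu
    exact mv_mono n u fun z => ih _

theorem vmono : S_VMONO := by
  intro n f
  induction f with
  | zero => intro η η' _; simp [V]
  | succ f ih =>
    intro η η' h
    rw [V_succ]
    refine iSup_le fun u => iSup_le fun hu => ?_
    exact (mv_mono n u fun z => ih _ _ (arr_le n z (rmv_le u h))).trans
      (le_V n f η' u (hu.trans_le (h.1 u)))

theorem vstep : S_VSTEP := by
  intro n f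
  induction f with
  | zero => intro η u _; simp [V]
  | succ f ih =>
    intro η u hu
    rw [V_succ]
    refine iSup_le fun w => iSup_le fun hw => ?_
    by_cases hwu : w = u
    · subst hwu
      exact mv_mono n w fun z => vup n f _
    have hwu' : u ≠ w := Ne.symm hwu
    have key : ∀ z, V n f (arr n z (rmv w η)) ≤ mv n (V n f) u (arr n z (rmv w η)) := by
      intro z
      refine ih _ _ (lt_of_lt_of_le ?_ (arr_cnt_le n z _ u))
      rw [rmv_cnt_ne hwu']
      exact hu
    have key2 : ∀ z, mv n (V n f) w (arr n z (rmv u η)) ≤ V n (f + 1) (arr n z (rmv u η)) := by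
      intro z
      refine le_V n f _ w (lt_of_lt_of_le ?_ (arr_cnt_le n z _ w))
      rw [rmv_cnt_ne hwu]
      exact hw
    have hsw : ∀ z z', arr n z' (rmv u (arr n z (rmv w η))) =
        arr n z (rmv w (arr n z' (rmv u η))) := by
      intro z z'
      rw [rmv_arr n u z _ (by rw [rmv_cnt_ne hwu']; exact hu),
        rmv_arr n w z' _ (by rw [rmv_cnt_ne hwu]; exact hw), arr_comm, rmv_comm]
    calc mv n (V n f) w η
        ≤ mv n (fun ξ => mv n (V n f) u ξ) w η := mv_mono n w key
      _ = ∑ c, pr w c * (rd w c + ∑ d, pr u d *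
            (rd u d + V n f (arr n (ds w c) (rmv w (arr n (ds u d) (rmv u η)))))) := by
          rw [mv_eq]
          refine Finset.sum_congr rfl fun c _ => ?_
          rw [mv_eq]
          simp only [hsw]
      _ = ∑ c, ∑ d, pr w c * pr u d * (rd w c + rd u d +
            V n f (arr n (ds w c) (rmv w (arr n (ds u d) (rmv u η))))) := by
          refine Finset.sum_congr rfl fun c _ => ?_
          have h1 : rd w c = ∑ d, pr u d * rd w c := by
            rw [← Finset.sum_mul, pr_sum, one_mul]
          conv_lhs => rw [h1]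
          rw [← Finset.sum_add_distrib, Finset.mul_sum]
          refine Finset.sum_congr rfl fun d _ => ?_
          ring
      _ = ∑ d, pr u d * (rd u d + ∑ c, pr w c *
            (rd w c + V n f (arr n (ds w c) (rmv w (arr n (ds u d) (rmv u η)))))) := by
          rw [Finset.sum_comm]
          refine Finset.sum_congr rfl fun d _ => ?_
          have h1 : rd u d = ∑ c, pr w c * rd u d := by
            rw [← Finset.sum_mul, pr_sum, one_mul]
          conv_rhs => rw [h1]
          rw [← Finset.sum_add_distrib, Finset.mul_sum]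
          refine Finset.sum_congr rfl fun c _ => ?_
          ring
      _ = mv n (fun ξ => mv n (V n f) w ξ) u η := by
          rw [mv_eq n (fun ξ => mv n (V n f) w ξ) u]
          refine Finset.sum_congr rfl fun d _ => ?_
          rw [mv_eq n (V n f) w]
      _ ≤ mv n (V n (f + 1)) u η := mv_mono n u key2

theorem vsub : S_VSUB := by
  have aux : ∀ n f, (∀ η η' : Cf, V n f (η.join η') ≤ V n f η + V n f η') →
      ∀ (η η' : Cf) (w : Vx), 0 < η.cnt w →
        mv n (V n f) w (η.join η') ≤ V n (f + 1) η + V n (f + 1) η' := by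
    intro n f ih η η' w hw
    calc mv n (V n f) w (η.join η')
        ≤ ∑ c, pr w c * (rd w c + (V n f (arr n (ds w c) (rmv w η)) + V n f η')) := by
          rw [mv_eq]
          gcongr with c _
          exact (vmono n f _ _ (join_arr n w _ η η' hw)).trans (ih _ _)
      _ = mv n (V n f) w η + V n f η' := by
          have h1 : V n f η' = ∑ c, pr w c * V n f η' := by
            rw [← Finset.sum_mul, pr_sum, one_mul]
          conv_rhs => rw [h1, mv_eq]
          rw [← Finset.sum_add_distrib]
          refine Finset.sum_congr rfl fun c _ => ?_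
          ring
      _ ≤ V n (f + 1) η + V n (f + 1) η' := add_le_add (le_V n f η w hw) (vup n f η')
  intro n f
  induction f with
  | zero => intro η η'; simp [V]
  | succ f ih =>
    intro η η'
    rw [V_succ]
    refine iSup_le fun w => iSup_le fun hw => ?_
    have hw' : 0 < η.cnt w + η'.cnt w := hw
    rcases Nat.eq_zero_or_pos (η.cnt w) with h0 | h0
    · have h1 : 0 < η'.cnt w := by omega
      rw [join_comm', add_comm]
      exact aux n f ih η' η w h1
    · exact aux n f ih η η' w h0

end Pool.Agent.U319.FR
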