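import Pool.Agent.U319.FR.Stm2
import Pool.Agent.U319.FR.VB

/-!
# Frog model on the rooted 4-ary tree, job CONC (version 2): concavity of the value in the number
of frogs at a vertex (helper780; proof by helper319)
-/

set_option autoImplicit false

open scoped ENNReal
open Finset

namespace Pool.Agent.U319.FR2.CONCx

open Pool.Agent.U319.FR Pool.Agent.U319.FR.VBx

/-- `k` more frogs at `x`. -/
noncomputable def ad (x : Vx) (k : ℕ) (η : Cf) : Cf := ⟨fun z => η.cnt z + dl x k z, η.vis⟩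

lemma ad_arr (n : ℕ) (x : Vx) (k : ℕ) (z : Vx) (η : Cf) :
    arr n z (ad x k η) = ad x k (arr n z η) := by
  by_cases h1 : n ≤ z.length
  · rw [arr_far h1, arr_far h1]
  by_cases h2 : z ∈ η.vis
  · rw [arr_in h1 h2, arr_in h1 (show z ∈ (ad x k η).vis from h2)]
    ext y
    · exact Nat.add_right_comm _ _ _
    · exact Iff.rfl
  · rw [arr_out h1 h2, arr_out h1 (show z ∉ (ad x k η).vis from h2)]
    ext y
    · exact Nat.add_right_comm _ _ _
    · exact Iff.rfl

lemma ad_rmv (x : Vx) (k : ℕ) (u : Vx) (η : Cf) (h : 0 < η.cnt u) :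
    rmv u (ad x k η) = ad x k (rmv u η) := by
  ext y
  · change η.cnt y + dl x k y - dl u 1 y = η.cnt y - dl u 1 y + dl x k y
    by_cases hy : y = u
    · subst hy
      simp only [dl, if_true]
      omega
    · simp only [dl, if_neg hy]
      omega
  · exact Iff.rfl

/-- The expected reward of a step. -/
noncomputable def rw0 (u : Vx) : ℝ≥0∞ := ∑ c, pr u c * rd u c

lemma av_eq (n : ℕ) (g : Cf → ℝ≥0∞) (u : Vx) (η : Cf) :
    av n g u η = ∑ c, pr u c * g (arr n (ds u c) (rmv u η)) := by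
  rcases u with _ | ⟨i, p⟩
  · rw [Fin.sum_univ_succ]
    simp [av, pr, ds]
  · rw [Fin.sum_univ_succ]
    simp [av, pr, ds]

lemma mv_av (n : ℕ) (g : Cf → ℝ≥0∞) (u : Vx) (η : Cf) : mv n g u η = rw0 u + av n g u η := by
  rw [mv_eq, av_eq, rw0, ← Finset.sum_add_distrib]
  refine Finset.sum_congr rfl fun c _ => ?_
  rw [mul_add]

lemma V_mono_f (hU : S_VUP) (n : ℕ) (η : Cf) : Monotone fun f => V n f η :=
  monotone_nat_of_le_succ fun f => hU n f η

lemma V_le_VI (n f : ℕ) (η : Cf) : V n f η ≤ VI n η := le_iSup (fun f => V n f η) f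

lemma mv_VI (hU : S_VUP) (n : ℕ) (u : Vx) (η : Cf) (h : 0 < η.cnt u) :
    mv n (VI n) u η ≤ VI n η := by
  have h1 : av n (VI n) u η = ⨆ f, av n (V n f) u η := by
    rw [av_eq]
    have h2 : ∀ f, av n (V n f) u η = ∑ c, pr u c * V n f (arr n (ds u c) (rmv u η)) :=
      fun f => av_eq n _ u η
    simp only [h2]
    rw [← ENNReal.finsetSum_iSup_of_monotone]
    · refine Finset.sum_congr rfl fun c _ => ?_
      rw [VI, ENNReal.mul_iSup]
    · intro c f f' hf
      exact mul_le_mul' le_rfl (V_mono_f hU n _ hf)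
  rw [mv_av, h1, ENNReal.add_iSup]
  refine iSup_le fun f => ?_
  rw [← mv_av]
  exact (le_V n f η u h).trans (V_le_VI n _ η)

lemma VI_mv (hS : S_VSTEP) (n : ℕ) (u : Vx) (η : Cf) (h : 0 < η.cnt u) :
    VI n η ≤ mv n (VI n) u η := by
  refine iSup_le fun f => (hS n f η u h).trans ?_
  exact mv_mono n u fun z => V_le_VI n f _

lemma VI_eq (hU : S_VUP) (hS : S_VSTEP) (n : ℕ) (u : Vx) (η : Cf) (h : 0 < η.cnt u) :
    VI n η = rw0 u + av n (VI n) u η := by
  rw [← mv_av]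
  exact le_antisymm (VI_mv hS n u η h) (mv_VI hU n u η h)

lemma VI_zero (n : ℕ) (η : Cf) (h : ∀ u, η.cnt u = 0) : VI n η = 0 := by
  unfold VI
  rw [ENNReal.iSup_eq_zero]
  intro f
  rcases f with _ | f
  · rfl
  · rw [V_succ, ENNReal.iSup_eq_zero]
    intro u
    rw [ENNReal.iSup_eq_zero]
    intro hu
    rw [h u] at hu
    exact absurd hu (lt_irrefl 0)

lemma VI_mono (hM : S_VMONO) (n : ℕ) {η η' : Cf} (h : η.Le η') : VI n η ≤ VI n η' :=
  iSup_mono fun f => hM n f _ _ h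

lemma VI_join (hJ : S_VSUB) (n : ℕ) (η η' : Cf) : VI n (η.join η') ≤ VI n η + VI n η' :=
  iSup_le fun f => (hJ n f η η').trans (add_le_add (V_le_VI n f η) (V_le_VI n f η'))

/-- The values with two and no more frogs at `x`. -/
noncomputable def X (n : ℕ) (x : Vx) (η : Cf) : ℝ≥0∞ := VI n (ad x 2 η) + VI n η

/-- Twice the value with one more frog at `x`. -/
noncomputable def Y (n : ℕ) (x : Vx) (η : Cf) : ℝ≥0∞ := 2 * VI n (ad x 1 η)

lemma VI_dl2 (hJ : S_VSUB) (n : ℕ) (x : Vx) (A : Set Vx) :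
    VI n ⟨dl x 2, A⟩ ≤ 2 * VI n ⟨dl x 1, A⟩ := by
  have h1 : (⟨dl x 2, A⟩ : Cf) = Cf.join ⟨dl x 1, A⟩ ⟨dl x 1, A⟩ := by
    ext y
    · simp only [Cf.join, dl]
      split_ifs <;> rfl
    · simp only [Cf.join, Set.union_self]
  rw [h1, two_mul]
  exact VI_join hJ n _ _

lemma X_le (hM : S_VMONO) (hJ : S_VSUB) (n : ℕ) (x : Vx) (η : Cf) :
    X n x η ≤ Y n x η + 2 * VI n η := by
  have h1 : VI n (ad x 2 η) ≤ VI n η + VI n ⟨dl x 2, η.vis⟩ := by
    have h2 : ad x 2 η = η.join ⟨dl x 2, η.vis⟩ := by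
      ext y
      · rfl
      · simp only [ad, Cf.join, Set.union_self]
    rw [h2]
    exact VI_join hJ n _ _
  have h3 : VI n ⟨dl x 1, η.vis⟩ ≤ VI n (ad x 1 η) :=
    VI_mono hM n ⟨fun z => Nat.le_add_left _ _, Set.Subset.rfl⟩
  calc X n x η = VI n (ad x 2 η) + VI n η := rfl
    _ ≤ (VI n η + 2 * VI n (ad x 1 η)) + VI n η := by
        refine add_le_add (h1.trans (add_le_add le_rfl ?_)) le_rfl
        exact (VI_dl2 hJ n x η.vis).trans (mul_le_mul' le_rfl h3)
    _ = Y n x η + 2 * VI n η := by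
        unfold Y
        ring

lemma X_step (hU : S_VUP) (hS : S_VSTEP) (n : ℕ) (x u : Vx) (η : Cf) (h : 0 < η.cnt u) :
    X n x η = 2 * rw0 u + av n (X n x) u η := by
  have h1 : 0 < (ad x 2 η).cnt u := lt_of_lt_of_le h (Nat.le_add_right _ _)
  unfold X
  rw [VI_eq hU hS n u _ h1, VI_eq hU hS n u _ h, av_eq, av_eq, av_eq]
  simp only [ad_rmv x 2 u η h, ad_arr, mul_add, Finset.sum_add_distrib]
  ring

lemma Y_step (hU : S_VUP) (hS : S_VSTEP) (n : ℕ) (x u : Vx) (η : Cf) (h : 0 < η.cnt u) :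
    Y n x η = 2 * rw0 u + av n (Y n x) u η := by
  have h1 : 0 < (ad x 1 η).cnt u := lt_of_lt_of_le h (Nat.le_add_right _ _)
  unfold Y
  rw [VI_eq hU hS n u _ h1, av_eq, av_eq]
  simp only [ad_rmv x 1 u η h, ad_arr]
  rw [mul_add, Finset.mul_sum]
  congr 1
  refine Finset.sum_congr rfl fun c _ => ?_
  ring

lemma av_lin (n : ℕ) (M : ℕ) (g g' g'' : Cf → ℝ≥0∞) (u : Vx) (η : Cf)
    (h : ∀ ξ, (M : ℝ≥0∞) * g ξ ≤ M * g' ξ + 2 * g'' ξ) :
    (M : ℝ≥0∞) * av n g u η ≤ M * av n g' u η + 2 * av n g'' u η := by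
  rw [av_eq, av_eq, av_eq, Finset.mul_sum, Finset.mul_sum, Finset.mul_sum,
    ← Finset.sum_add_distrib]
  refine Finset.sum_le_sum fun c _ => ?_
  calc (M : ℝ≥0∞) * (pr u c * g (arr n (ds u c) (rmv u η)))
      = pr u c * (M * g (arr n (ds u c) (rmv u η))) := by ring
    _ ≤ pr u c * (M * g' (arr n (ds u c) (rmv u η)) + 2 * g'' (arr n (ds u c) (rmv u η))) :=
        mul_le_mul' le_rfl (h _)
    _ = _ := by ring

end Pool.Agent.U319.FR2.CONCx

namespace Pool.Agent.U319.FR2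

open Pool.Agent.U319.FR Pool.Agent.U319.FR.VBx CONCx

theorem conc : S_POT → S_VMONO → S_VUP → S_VSTEP → S_VSUB → S_CONC := by
  intro hP hM hU hS hJ n cnt A x hfin
  obtain ⟨G, G2, h1, h2, h3⟩ := hP
  have hVG : ∀ η, VI n η ≤ G n η := fun η => iSup_le fun f => h1 n f η
  have key : ∀ (M : ℕ) (η : Cf), (M : ℝ≥0∞) * X n x η ≤ M * Y n x η + 2 * G2 n η := by
    intro M
    induction M with
    | zero =>
      intro η
      simp
    | succ M ih =>
      intro η
      by_cases h0 : ∀ u, η.cnt u = 0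
      · have h4 : X n x η ≤ Y n x η := by
          have := X_le hM hJ n x η
          rwa [VI_zero n η h0, mul_zero, add_zero] at this
        exact (mul_le_mul' le_rfl h4).trans le_self_add
      · rw [not_forall] at h0
        obtain ⟨u, hu⟩ := h0
        have hu' : 0 < η.cnt u := Nat.pos_of_ne_zero hu
        have h4 := av_lin n M (X n x) (Y n x) (G2 n) u η ih
        have h5 : X n x η ≤ Y n x η + 2 * G n η :=
          (X_le hM hJ n x η).trans (add_le_add le_rfl (mul_le_mul' le_rfl (hVG η)))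
        calc ((M + 1 : ℕ) : ℝ≥0∞) * X n x η
            = M * (2 * rw0 u + av n (X n x) u η) + X n x η := by
              rw [← X_step hU hS n x u η hu']
              push_cast
              ring
          _ = M * (2 * rw0 u) + M * av n (X n x) u η + X n x η := by ring
          _ ≤ M * (2 * rw0 u) + (M * av n (Y n x) u η + 2 * av n (G2 n) u η) +
                (Y n x η + 2 * G n η) := add_le_add (add_le_add le_rfl h4) h5
          _ = M * (2 * rw0 u + av n (Y n x) u η) + Y n x η +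
                2 * (av n (G2 n) u η + G n η) := by ring
          _ ≤ M * (2 * rw0 u + av n (Y n x) u η) + Y n x η + 2 * G2 n η :=
              add_le_add le_rfl (mul_le_mul' le_rfl (h2 n η u hu'))
          _ = ((M + 1 : ℕ) : ℝ≥0∞) * Y n x η + 2 * G2 n η := by
              rw [← Y_step hU hS n x u η hu']
              push_cast
              ring
  have hG := (h3 n ⟨cnt, A⟩ hfin).2
  change X n x ⟨cnt, A⟩ ≤ Y n x ⟨cnt, A⟩
  by_cases hY : Y n x ⟨cnt, A⟩ = ⊤
  · rw [hY]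
    exact le_top
  have h4 : 2 * G2 n ⟨cnt, A⟩ ≠ ⊤ := ENNReal.mul_ne_top ENNReal.ofNat_ne_top hG
  have hX : X n x ⟨cnt, A⟩ ≠ ⊤ := by
    have h5 := key 1 ⟨cnt, A⟩
    rw [Nat.cast_one, one_mul, one_mul] at h5
    exact ne_top_of_le_ne_top (ENNReal.add_ne_top.2 ⟨hY, h4⟩) h5
  rw [← ENNReal.toReal_le_toReal hX hY]
  by_contra hc
  rw [not_le] at hc
  obtain ⟨M, hM'⟩ := exists_nat_gt ((2 * G2 n ⟨cnt, A⟩).toReal /
    ((X n x ⟨cnt, A⟩).toReal - (Y n x ⟨cnt, A⟩).toReal))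
  have h6 : 0 < (X n x ⟨cnt, A⟩).toReal - (Y n x ⟨cnt, A⟩).toReal := by linarith
  rw [div_lt_iff₀ h6] at hM'
  have h7 := key M ⟨cnt, A⟩
  have h8 := ENNReal.toReal_mono (ENNReal.add_ne_top.2
    ⟨ENNReal.mul_ne_top (ENNReal.natCast_ne_top M) hY, h4⟩) h7
  rw [ENNReal.toReal_mul, ENNReal.toReal_add (ENNReal.mul_ne_top (ENNReal.natCast_ne_top M) hY) h4,
    ENNReal.toReal_mul, ENNReal.toReal_natCast] at h8
  linarith

end Pool.Agent.U319.FR2
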