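import Pool.Agent.U319.FR.Stm2

/-!
# Frog model on the rooted 4-ary tree, job DSTEP (version 2): the induction step of the domination
(helper394; proof by helper319)
-/

set_option autoImplicit false

open scoped ENNReal
open Finset

namespace Pool.Agent.U319.FR2.DSTEPx

open Pool.Agent.U319.FR

lemma finite_add (cnt : Vx → ℕ) (h : (Function.support cnt).Finite) (p : Vx) (e : ℕ) :
    (Function.support fun x => cnt x + dl p e x).Finite := by
  refine (h.union (Set.finite_singleton p)).subset fun z hz => ?_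
  rw [Function.mem_support] at hz
  by_cases hzp : z = p
  · exact Or.inr hzp
  · left
    rw [Function.mem_support]
    intro h0
    apply hz
    simp [dl, hzp, h0]

lemma WW_ne (hv : S_VIF) (n : ℕ) (v p : Vx) (cnt : Vx → ℕ) (h : (Function.support cnt).Finite)
    (A : Set Vx) (e s : ℕ) : WW n v p cnt A e s ≠ ⊤ := by
  unfold WW
  refine ENNReal.add_ne_top.mpr ⟨?_, hv n _ _ (finite_add cnt h p e)⟩
  split_ifs
  · exact ENNReal.natCast_ne_top _
  · exact ENNReal.zero_ne_top

lemma HH_ne (hv : S_VIF) (n : ℕ) (v p : Vx) (cnt : Vx → ℕ) (h : (Function.support cnt).Finite)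
    (A : Set Vx) (k : ℕ) (c : Fin 4 → ℕ) (e : ℕ) : HH n v p cnt A k c e ≠ ⊤ := by
  unfold HH
  refine ENNReal.add_ne_top.mpr ⟨?_, hv n _ _ (finite_add _ (finite_add cnt h v k) p e)⟩
  split_ifs
  · exact ENNReal.natCast_ne_top _
  · exact ENNReal.zero_ne_top

lemma coef_ne (hSC : 0 < SC) (k : ℕ) : (k : ℝ≥0∞) / (SC : ℝ≥0∞) ≠ ⊤ := by
  refine ENNReal.div_ne_top (ENNReal.natCast_ne_top k) ?_
  exact_mod_cast hSC.ne'

lemma KE_ne (hSC : 0 < SC) (a : ℕ) (g : ℕ → ℕ → ℝ≥0∞) (hg : ∀ y s, g y s ≠ ⊤) :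
    KE a g ≠ ⊤ := by
  unfold KE
  refine ENNReal.sum_ne_top.mpr fun s _ => ENNReal.sum_ne_top.mpr fun y _ => ?_
  exact ENNReal.mul_ne_top (coef_ne hSC _) (hg y s)

lemma KE_toReal (hSC : 0 < SC) (a : ℕ) (g : ℕ → ℕ → ℝ≥0∞) (hg : ∀ y s, g y s ≠ ⊤) :
    (KE a g).toReal = KV a (fun y s => (g y s).toReal) := by
  unfold KE KV
  rw [ENNReal.toReal_sum]
  · refine Finset.sum_congr rfl fun s _ => ?_
    rw [ENNReal.toReal_sum]
    · refine Finset.sum_congr rfl fun y _ => ?_
      rw [ENNReal.toReal_mul, ENNReal.toReal_div, ENNReal.toReal_natCast, ENNReal.toReal_natCast]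
    · intro y _
      exact ENNReal.mul_ne_top (coef_ne hSC _) (hg y s)
  · intro s _
    exact ENNReal.sum_ne_top.mpr fun y _ => ENNReal.mul_ne_top (coef_ne hSC _) (hg y s)

lemma VI_mono (h2 : S_VMONO) (n : ℕ) {η η' : Cf} (h : η.Le η') : VI n η ≤ VI n η' :=
  iSup_mono fun f => h2 n f η η' h

lemma VI_le (n : ℕ) {η η' : Cf} (h : ∀ f, V n f η ≤ V n f η') : VI n η ≤ VI n η' :=
  iSup_mono h

/-- The case `m = 0`. -/
theorem dom_zero (ht : S_TAB) (h2 : S_VMONO) (hc : S_CUT) : DOMat 0 := by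
  intro n i p hn cnt A _ hpA hcnt a ha _
  have hlen : n ≤ (i :: p).length := by simp [← hn]
  have e1 : arr n (i :: p) ⟨cnt, A⟩ = ⟨cnt, A⟩ := by
    unfold arr
    rw [if_pos hlen]
  rw [e1]
  set x := VI n ⟨cnt, A⟩ with hx
  have hW : ∀ y s, x ≤ WW n (i :: p) p cnt A y s := by
    intro y s
    unfold WW
    refine le_add_left ?_
    refine VI_le n fun f => ?_
    have hcut : V n f ⟨cnt, A⟩ = V n f ⟨cnt, Rep A (i :: p) s⟩ := by
      refine hc n f cnt A _ fun z hz => ?_
      have hz1 : ¬ (i :: p) <:+ z := fun h => absurd h.length_le (by omega)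
      have hz2 : z ∉ Can s (i :: p) := by
        rintro ⟨_, h | ⟨j, t, _, h⟩⟩
        · rw [h] at hz
          omega
        · rw [h] at hz
          simp only [List.length_append, List.length_replicate, List.length_cons] at hz hlen
          omega
      unfold Rep
      simp [hz1, hz2]
    rw [hcut]
    refine h2 n f _ _ ⟨fun z => Nat.le_add_right _ _, subset_rfl⟩
  have hsum : ∑ s ∈ Icc 1 5, ∑ y ∈ range 6, (K a s y : ℝ≥0∞) / (SC : ℝ≥0∞) = 1 := by
    have h3 := ht.2.1 a ha
    have h4 : ∑ s ∈ Icc 1 5, ∑ y ∈ range 6, (K a s y : ℝ≥0∞) = (SC : ℝ≥0∞) := by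
      rw [← h3]
      push_cast
      rfl
    simp only [div_eq_mul_inv, ← Finset.sum_mul]
    rw [h4]
    refine ENNReal.mul_inv_cancel ?_ (ENNReal.natCast_ne_top _)
    exact_mod_cast ht.1.ne'
  calc x = (∑ s ∈ Icc 1 5, ∑ y ∈ range 6, (K a s y : ℝ≥0∞) / (SC : ℝ≥0∞)) * x := by
        rw [hsum, one_mul]
    _ = ∑ s ∈ Icc 1 5, ∑ y ∈ range 6, (K a s y : ℝ≥0∞) / (SC : ℝ≥0∞) * x := by
        rw [Finset.sum_mul]
        exact Finset.sum_congr rfl fun s _ => Finset.sum_mul _ _ _
    _ ≤ KE a (fun y s => WW n (i :: p) p cnt A y s) := by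
        unfold KE
        refine Finset.sum_le_sum fun s _ => Finset.sum_le_sum fun y _ => ?_
        gcongr
        exact hW y s

/-- The canonical sets of the children in the canonical set of the vertex. -/
lemma rpc_sub (A : Set Vx) (v : Vx) {a : ℕ} (ha : 1 ≤ a) : Rpc A v (c0 a) ⊆ Rep A v a := by
  rintro z (h | h | ⟨i, h⟩)
  · exact Or.inl h
  · exact Or.inr ⟨ha, Or.inl h⟩
  · obtain ⟨h1, h2⟩ := h
    have hi : (i : ℕ) + 1 < a := by
      by_contra hi
      unfold c0 at h1
      rw [if_neg hi] at h1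
      omega
    have hc : c0 a i = 2 := by
      unfold c0
      rw [if_pos hi]
    refine Or.inr ⟨ha, Or.inr ⟨i, ?_⟩⟩
    rcases h2 with h | ⟨j, t, hj, h⟩
    · exact ⟨0, hi, by rw [h]; rfl⟩
    · rw [hc] at hj
      have hj0 : j = 0 := by
        apply Fin.ext
        simp only [Fin.val_zero]
        omega
      refine ⟨t + 1, hi, ?_⟩
      rw [h, hj0, List.replicate_succ', List.append_assoc]
      rfl

lemma rpc_zero (A : Set Vx) (v : Vx) : Rpc A v (c0 0) ⊆ insert v A := by
  rintro z (h | h | ⟨i, h⟩)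
  · exact Or.inr h.1
  · exact Or.inl h
  · exfalso
    have h1 := h.1
    unfold c0 at h1
    rw [if_neg (by omega)] at h1
    omega

end Pool.Agent.U319.FR2.DSTEPx

namespace Pool.Agent.U319.FR2

open Pool.Agent.U319.FR DSTEPx

/-- Job DSTEP. -/
theorem dstep (ht : S_TAB) (hl : S_LAB) (hv : S_VIF) (h2 : S_VMONO) (hc : S_CUT) (hcan : S_CAN)
    (hr : S_RUN) (hs : S_SYS) : S_DSTEP := by
  refine ⟨dom_zero ht h2 hc, fun m hm n i p hn cnt A hfin hpA hcnt a ha hlab => ?_⟩
  set v : Vx := i :: p with hv'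
  have hlen : ¬ n ≤ v.length := by
    rw [hv', List.length_cons]
    omega
  have hsys := hs m hm n i p hn cnt A hfin hpA hcnt
  have hrun := hr _ _ hsys a ha
  rw [← KE_toReal ht.1 a (fun y s => WW n v p cnt A y s)
      (fun y s => WW_ne hv _ _ _ _ hfin _ _ _)] at hrun
  have hHH : HH n v p cnt A (k0 a) (c0 a) 0 ≤ KE a (fun y s => WW n v p cnt A y s) :=
    (ENNReal.toReal_le_toReal (HH_ne hv _ _ _ _ hfin _ _ _ _)
      (KE_ne ht.1 a _ (fun y s => WW_ne hv _ _ _ _ hfin _ _ _))).mp hrun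
  refine le_trans ?_ hHH
  unfold HH
  refine le_add_left ?_
  by_cases ha0 : a = 0
  · subst ha0
    have hk0 : k0 0 = 2 := rfl
    rw [hk0]
    unfold arr
    rw [if_neg hlen]
    split_ifs with hvA
    · refine VI_mono h2 n ⟨fun z => ?_, ?_⟩
      · simp only
        have : dl v 1 z ≤ dl v 2 z := by
          unfold dl
          split_ifs <;> omega
        omega
      · simp only
        refine (rpc_zero A v).trans ?_
        rw [Set.insert_eq_of_mem hvA]
    · refine VI_mono h2 n ⟨fun z => ?_, rpc_zero A v⟩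
      simp only
      omega
  · have hk0 : k0 a = 1 := by unfold k0; rw [if_neg ha0]
    rw [hk0]
    obtain ⟨hvA, -⟩ := hl.2.2.1 m a v A (by omega) ha hlab
    unfold arr
    rw [if_neg hlen, if_pos hvA]
    have hcnt' : ∀ (j : Fin 4) (z : Vx), (j :: v) <:+ z →
        (fun x => cnt x + dl v 1 x) z = 0 := by
      intro j z hz
      have h1 : v <:+ z := (List.suffix_cons j v).trans hz
      have h3 : z ≠ v := by
        intro h
        have := hz.length_le
        rw [h, List.length_cons] at this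
        omega
      simp only [dl, if_neg h3, hcnt z h1]
    refine (VI_le n fun f => hcan (m + 1) n v (by rw [hv', List.length_cons]; omega) a ha _ A
      hcnt' hlab f).trans ?_
    refine VI_mono h2 n ⟨fun z => ?_, rpc_sub A v (by omega)⟩
    simp only
    omega

end Pool.Agent.U319.FR2
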