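import Mathlib

/-!
# Frog model on the rooted 4-ary tree: configurations and the value function

Vertices are lists over `Fin 4`, the children of `z` being `j :: z`.
-/

set_option autoImplicit false

open scoped ENNReal

namespace Pool.Agent.U319.FR

/-- Vertices. -/
abbrev Vx : Type := List (Fin 4)

/-- A configuration: the numbers of awake frogs at the vertices and the set of the visited
vertices (all other vertices hold one sleeping frog). -/
@[ext] structure Cf : Type where
  /-- The numbers of awake frogs. -/
  cnt : Vx → ℕ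
  /-- The visited vertices. -/
  vis : Set Vx

/-- `η` has fewer frogs than `η'`: fewer awake frogs and more visited vertices. -/
def Cf.Le (η η' : Cf) : Prop := (∀ z, η.cnt z ≤ η'.cnt z) ∧ η'.vis ⊆ η.vis

/-- Union of two configurations. -/
def Cf.join (η η' : Cf) : Cf := ⟨fun x => η.cnt x + η'.cnt x, η.vis ∪ η'.vis⟩

open Classical in
/-- `k` frogs at `z` and no others. -/
noncomputable def dl (z : Vx) (k : ℕ) : Vx → ℕ := fun x => if x = z then k else 0

open Classical in
/-- A frog arrives at `z`; the tree is cut at generation `n`. -/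
noncomputable def arr (n : ℕ) (z : Vx) (η : Cf) : Cf :=
  if n ≤ z.length then η
  else if z ∈ η.vis then ⟨fun x => η.cnt x + dl z 1 x, η.vis⟩
  else ⟨fun x => η.cnt x + dl z 2 x, insert z η.vis⟩

/-- One frog at `u` is removed. -/
noncomputable def rmv (u : Vx) (η : Cf) : Cf := ⟨fun x => η.cnt x - dl u 1 x, η.vis⟩

/-- One frog at `u` makes a step; a step from a child of the root to the root counts one. -/
noncomputable def mv (n : ℕ) (g : Cf → ℝ≥0∞) : Vx → Cf → ℝ≥0∞
  | [], η => ∑ j : Fin 4, (1 / 4) * g (arr n [j] (rmv [] η))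
  | i :: p, η => (1 / 5) * ((if p = [] then 1 else 0) + g (arr n p (rmv (i :: p) η))) +
      ∑ j : Fin 4, (1 / 5) * g (arr n (j :: i :: p) (rmv (i :: p) η))

/-- The greatest expected number of steps to the root in `f` steps of frogs, the order in which
the frogs move being free. -/
noncomputable def V (n : ℕ) : ℕ → Cf → ℝ≥0∞
  | 0, _ => 0
  | f + 1, η => ⨆ u : Vx, ⨆ _ : 0 < η.cnt u, mv n (V n f) u η

open Classical in
/-- Labels of subtrees (`m` generations, root `v`): `0` nothing known, `k + 1`: the root is visited
and at least `k` of its children have label at least `2`. -/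
def Lab : ℕ → ℕ → Vx → Set Vx → Prop
  | 0, _, _, _ => True
  | m + 1, s, v, A => s = 0 ∨
      (v ∈ A ∧ s ≤ 1 + (Finset.univ.filter fun j : Fin 4 => Lab m 2 (j :: v) A).card)

/-- The label of a vertex from the labels of its children. -/
def phi (c : Fin 4 → ℕ) : ℕ := 1 + (Finset.univ.filter fun j : Fin 4 => 2 ≤ c j).card

/-- `B` extends `A` inside the subtree of `v`. -/
def Out (v : Vx) (A B : Set Vx) : Prop := A ⊆ B ∧ ∀ z, ¬ (v <:+ z) → (z ∈ B ↔ z ∈ A)

end Pool.Agent.U319.FR
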