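import Pool.Agent.U319.FR.Stm

/-!
# Frog model on the rooted 4-ary tree: the conclusion from the parts
-/

set_option autoImplicit false

open Finset MeasureTheory ProbabilityTheory
open scoped ENNReal

namespace Pool.Agent.U319.FR.FINJ

variable {Ω : Type} [MeasurableSpace Ω] {ξ : Vx → ℕ → Ω → Fin 4 × Fin 5}

/-- The number of visits found is measurable. -/
lemma meas (hm : ∀ v k, Measurable (ξ v k)) (n L : ℕ) (m : ℕ) : ∀ t : Ex,
    Measurable fun ω => ((expl n L (fun w k => ξ w k ω) m t).cn : ℝ≥0∞) := by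
  induction m with
  | zero =>
    intro t
    simp only [expl]
    exact measurable_const
  | succ m ih =>
    intro t
    obtain ⟨q, vis, cn⟩ := t
    cases q with
    | nil =>
      simp only [expl]
      exact measurable_const
    | cons e q =>
      obtain ⟨w, z, k⟩ := e
      by_cases hL : L ≤ k
      · have : (fun ω => ((expl n L (fun w k => ξ w k ω) (m + 1) ⟨(w, z, k) :: q, vis, cn⟩).cn :
            ℝ≥0∞)) = fun ω => ((expl n L (fun w k => ξ w k ω) m ⟨q, vis, cn⟩).cn : ℝ≥0∞) := by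
          funext ω
          simp only [expl, if_pos hL]
        rw [this]
        exact ih _
      · have : (fun ω => ((expl n L (fun w k => ξ w k ω) (m + 1) ⟨(w, z, k) :: q, vis, cn⟩).cn :
            ℝ≥0∞)) = (fun p : Ω × (Fin 4 × Fin 5) =>
              ((expl n L (fun w k => ξ w k p.1) m (adv n w k (stp z p.2) q vis cn)).cn : ℝ≥0∞)) ∘
              fun ω => (ω, ξ w k ω) := by
          funext ω
          simp only [expl, if_neg hL, Function.comp]
        rw [this]
        refine Measurable.comp ?_ (measurable_id.prodMk (hm w k))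
        exact measurable_from_prod_countable_left fun a =>
          ih (adv n w k (stp z a) q vis cn)

theorem main : S_FINAL := by
  rintro ⟨C, hC, hroot⟩ hpath havg Ω _ P _ ξ hm hI hU S hS0 hS1
  rw [ae_iff]
  -- the events
  set E : ℕ → ℕ → Set Ω := fun M n =>
    {ω | (M : ℝ≥0∞) ≤ ((expl n n (fun w k => ξ w k ω) (fuel n) ex0).cn : ℝ≥0∞)} with hE
  have hEP : ∀ (M n : ℕ), 1 ≤ n → (M : ℝ≥0∞) * P (E M n) ≤ C := by
    intro M n hn
    refine (mul_meas_ge_le_lintegral (meas hm n n (fuel n) ex0) (M : ℝ≥0∞)).trans ?_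
    exact (havg Ω P ξ hm hI hU n n (fuel n) hn).trans (hroot n (fuel n) hn)
  have hbad : ∀ M : ℕ, (M : ℝ≥0∞) *
      P {ω | ¬ {q : Vx × ℕ | Hits (fun v k => S v k ω) q}.Finite} ≤ C := by
    intro M
    have hsub : {ω | ¬ {q : Vx × ℕ | Hits (fun v k => S v k ω) q}.Finite} ⊆
        ⋃ N : ℕ, ⋂ n : ℕ, ⋂ _ : N ≤ n, E M n := by
      intro ω hω
      have hinf : {q : Vx × ℕ | Hits (fun v k => S v k ω) q}.Infinite := hω
      obtain ⟨F, hF1, hF2⟩ := hinf.exists_subset_card_eq (M + 1)
      obtain ⟨N, hN⟩ := hpath (fun w k => ξ w k ω) (fun v k => S v k ω) (fun v => hS0 v ω)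
        (fun v k => hS1 v k ω) F (fun q hq => hF1 (mem_coe.2 hq))
      simp only [Set.mem_iUnion, Set.mem_iInter]
      refine ⟨N, fun n hn => ?_⟩
      have h1 := hN n hn
      rw [hF2] at h1
      show (M : ℝ≥0∞) ≤ _
      exact_mod_cast (by omega : M ≤ (expl n n (fun w k => ξ w k ω) (fuel n) ex0).cn)
    have hmono : Monotone fun N : ℕ => ⋂ n : ℕ, ⋂ _ : N ≤ n, E M n := by
      intro N N' hNN ω hω
      simp only [Set.mem_iInter] at hω ⊢
      exact fun n hn => hω n (hNN.trans hn)
    calc (M : ℝ≥0∞) * P {ω | ¬ {q : Vx × ℕ | Hits (fun v k => S v k ω) q}.Finite}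
        ≤ M * P (⋃ N : ℕ, ⋂ n : ℕ, ⋂ _ : N ≤ n, E M n) :=
          mul_le_mul_right (measure_mono hsub) _
      _ = ⨆ N : ℕ, (M : ℝ≥0∞) * P (⋂ n : ℕ, ⋂ _ : N ≤ n, E M n) := by
          rw [hmono.measure_iUnion, ENNReal.mul_iSup]
      _ ≤ C := by
          refine iSup_le fun N => ?_
          refine le_trans (mul_le_mul_right (measure_mono ?_) _)
            (hEP M (max N 1) (le_max_right _ _))
          intro ω hω
          simp only [Set.mem_iInter] at hω
          exact hω (max N 1) (le_max_left _ _)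
  by_contra h0
  obtain ⟨M, hM⟩ := ENNReal.exists_nat_mul_gt h0 hC
  exact absurd (hbad M) (not_le.2 hM)

end Pool.Agent.U319.FR.FINJ

namespace Pool.Agent.U319.FR

theorem final : S_FINAL := FINJ.main

end Pool.Agent.U319.FR
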