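import Pool.Agent.U319.FR.StmD

/-!
# Frog model on the rooted 4-ary tree: facts on labels (job LAB)
-/

set_option autoImplicit false

open Finset

namespace Pool.Agent.U319.FR


theorem lab_zero (m : ℕ) (v : Vx) (A : Set Vx) : Lab m 0 v A := by
  cases m with
  | zero => trivial
  | succ m => exact Or.inl rfl

theorem lab_mono (m s s' : ℕ) (v : Vx) (A : Set Vx) (h : s' ≤ s) (hL : Lab m s v A) :
    Lab m s' v A := by
  cases m with
  | zero => trivial
  | succ m =>
    rcases hL with h0 | ⟨h1, h2⟩
    · exact Or.inl (by omega)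
    · exact Or.inr ⟨h1, h.trans h2⟩

theorem lab_congr (m : ℕ) : ∀ (s : ℕ) (v : Vx) (A B : Set Vx),
    (∀ z, v <:+ z → (z ∈ A ↔ z ∈ B)) → (Lab m s v A ↔ Lab m s v B) := by
  induction m with
  | zero => intro s v A B _; exact Iff.rfl
  | succ m ih =>
    intro s v A B h
    have h1 : v ∈ A ↔ v ∈ B := h v (List.suffix_refl v)
    have h2 : ∀ j : Fin 4, Lab m 2 (j :: v) A ↔ Lab m 2 (j :: v) B := fun j =>
      ih 2 (j :: v) A B fun z hz => h z ((List.suffix_cons j v).trans hz)
    classical
    have h3 : (univ.filter fun j : Fin 4 => Lab m 2 (j :: v) A) =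
        univ.filter fun j : Fin 4 => Lab m 2 (j :: v) B := by
      ext j
      simp only [mem_filter, mem_univ, true_and]
      exact h2 j
    refine or_congr Iff.rfl (and_congr h1 ?_)
    have h4 := congrArg Finset.card h3
    constructor
    · intro h5
      refine h5.trans (Nat.add_le_add_left (le_of_eq ?_) 1)
      convert h4
    · intro h5
      refine h5.trans (Nat.add_le_add_left (le_of_eq ?_) 1)
      convert h4.symm

theorem exists_perm (a : ℕ) (ha : a ≤ 5) (F : Finset (Fin 4)) (h : a ≤ 1 + F.card) :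
    ∃ π : Equiv.Perm (Fin 4), ∀ j : Fin 4, (j : ℕ) + 1 < a → π j ∈ F := by
  have hc : (univ.filter fun j : Fin 4 => (j : ℕ) + 1 < a).card ≤ F.card := by
    have : (univ.filter fun j : Fin 4 => (j : ℕ) + 1 < a).card ≤ a - 1 := by
      clear h
      interval_cases a <;> decide
    omega
  obtain ⟨e⟩ := Function.Embedding.nonempty_of_card_le
    (α := {j : Fin 4 // (j : ℕ) + 1 < a}) (β := {j : Fin 4 // j ∈ F})
    (by rw [Fintype.card_subtype, Fintype.card_coe]; exact hc)
  let g : {j : Fin 4 // (j : ℕ) + 1 < a} → Fin 4 := fun j => (e j).1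
  have hg : Function.Injective g := fun x y hxy => e.injective (Subtype.ext hxy)
  let e' : {j : Fin 4 // (j : ℕ) + 1 < a} ≃ {j : Fin 4 // j ∈ Set.range g} := Equiv.ofInjective g hg
  refine ⟨by classical exact e'.extendSubtype, fun j hj => ?_⟩
  rw [Equiv.extendSubtype_apply_of_mem e' j hj]
  exact (e ⟨j, hj⟩).2

/-- Job LAB. -/
theorem lab : S_LAB := by
  refine ⟨lab_mono, lab_congr, ?_, ?_⟩
  · intro m a v A h1 h5 hL
    rcases hL with h0 | ⟨hv, hc⟩
    · omega
    · refine ⟨hv, ?_⟩
      classical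
      obtain ⟨π, hπ⟩ := exists_perm a h5 (univ.filter fun j : Fin 4 => Lab m 2 (j :: v) A)
        (by convert hc)
      refine ⟨π, fun j => ?_⟩
      unfold c0
      split_ifs with hj
      · exact (mem_filter.1 (hπ j hj)).2
      · exact lab_zero m _ A
  · intro m c π v B hv hL
    refine Or.inr ⟨hv, ?_⟩
    unfold phi
    refine Nat.add_le_add_left (card_le_card_of_injOn π ?_ π.injective.injOn) 1
    intro j hj
    have hj' : 2 ≤ c j := by simpa using hj
    simp only [coe_filter, mem_univ, true_and, Set.mem_ofPred_eq]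
    exact lab_mono m (c j) 2 _ B hj' (hL j)

end Pool.Agent.U319.FR
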