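import Pool.Agent.U319.FR.Stm

/-!
# Frog model on the rooted 4-ary tree: the exploration finds all visits of the root
-/

set_option autoImplicit false

open Finset

namespace Pool.Agent.U319.FR.PATHJ

/-- Invariant of the exploration; `K w` is the number of steps made by the frog `w`. -/
structure Inv (n L : ℕ) (S : Vx → ℕ → Vx) (K : Vx → ℕ) (t : Ex) : Prop where
  root : [] ∈ t.vis
  nd : t.vis.Nodup
  len : ∀ w ∈ t.vis, w.length < n
  pos : ∀ w ∈ t.vis, ∀ j ≤ K w, S w j ∈ t.vis
  fin : ∀ w ∈ t.vis, w ∈ t.q.map Prod.fst ∨ L ≤ K w ∨ n ≤ (S w (K w + 1)).length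
  ent : ∀ e ∈ t.q, e.1 ∈ t.vis ∧ e.2.1 = S e.1 e.2.2 ∧ e.2.2 = K e.1 ∧ K e.1 ≤ L
  qn : (t.q.map Prod.fst).Nodup
  cn : ∑ w ∈ t.vis.toFinset, ((Icc 1 (K w)).filter (fun j => S w j = [])).card ≤ t.cn

/-- Work left. -/
def mu (n L : ℕ) (t : Ex) : ℕ :=
  (t.q.map (fun e => L + 1 - e.2.2)).sum + (L + 1) * (4 ^ n - t.vis.length)

/-- Vertices of generation less than `n`. -/
def verts : ℕ → Finset Vx
  | 0 => ∅
  | n + 1 => insert [] ((Finset.univ ×ˢ verts n).image (fun q => q.1 :: q.2))

lemma mem_verts (n : ℕ) : ∀ w : Vx, w.length < n → w ∈ verts n := by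
  induction n with
  | zero => intro w h; omega
  | succ n ih =>
    intro w h
    cases w with
    | nil => simp [verts]
    | cons a w =>
      simp only [verts, mem_insert, mem_image, mem_product, mem_univ, true_and]
      right
      exact ⟨(a, w), ih w (by simpa using h), rfl⟩

lemma card_verts (n : ℕ) : 3 * (verts n).card + 1 ≤ 4 ^ n := by
  induction n with
  | zero => simp [verts]
  | succ n ih =>
    have h1 : (verts (n + 1)).card ≤ 4 * (verts n).card + 1 := by
      have e : verts (n + 1) =
        insert [] (((Finset.univ : Finset (Fin 4)) ×ˢ verts n).image (fun q => q.1 :: q.2)) := rfl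
      rw [e]
      refine (card_insert_le _ _).trans ?_
      have := card_image_le (s := (Finset.univ : Finset (Fin 4)) ×ˢ verts n)
        (f := fun q : Fin 4 × Vx => q.1 :: q.2)
      rw [card_product] at this
      simp only [card_univ, Fintype.card_fin] at this
      omega
    rw [pow_succ]
    omega

lemma length_le {n : ℕ} {l : List Vx} (h : l.Nodup) (h1 : ∀ w ∈ l, w.length < n) :
    l.length < 4 ^ n := by
  have h2 : l.toFinset ⊆ verts n := fun w hw => mem_verts n w (h1 w (List.mem_toFinset.1 hw))
  have h3 := card_le_card h2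
  rw [List.toFinset_card_of_nodup h] at h3
  have := card_verts n
  omega

section

variable {n L : ℕ} {x : Vx → ℕ → Fin 4 × Fin 5} {S : Vx → ℕ → Vx} (h0 : ∀ v, S v 0 = v)
  (hs : ∀ v k, S v (k + 1) = stp (S v k) (x v k))

/-- A frog is removed from the queue. -/
lemma inv_drop {K : Vx → ℕ} {w z : Vx} {k : ℕ} {q : List (Vx × Vx × ℕ)} {vis : List Vx} {cn : ℕ}
    (h : Inv n L S K ⟨(w, z, k) :: q, vis, cn⟩) (hd : L ≤ K w ∨ n ≤ (S w (K w + 1)).length) :
    Inv n L S K ⟨q, vis, cn⟩ := by
  refine ⟨h.root, h.nd, h.len, h.pos, ?_, ?_, ?_, h.cn⟩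
  · intro w' hw'
    by_cases hww : w' = w
    · subst hww; exact Or.inr hd
    · rcases h.fin w' hw' with h1 | h1
      · left
        simp only [List.map_cons, List.mem_cons] at h1
        rcases h1 with h1 | h1
        · exact absurd h1 hww
        · exact h1
      · exact Or.inr h1
  · intro e he
    exact h.ent e (List.mem_cons_of_mem _ he)
  · exact (List.nodup_cons.1 h.qn).2

include hs in
lemma inv_old {K : Vx → ℕ} {w z : Vx} {k : ℕ} {q : List (Vx × Vx × ℕ)} {vis : List Vx} {cn : ℕ}
    (h : Inv n L S K ⟨(w, z, k) :: q, vis, cn⟩) (hL : k < L)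
    (hv : stp z (x w k) ∈ vis) :
    Inv n L S (Function.update K w (k + 1)) ⟨(w, stp z (x w k), k + 1) :: q, vis,
      cn + if stp z (x w k) = [] then 1 else 0⟩ := by
  obtain ⟨hw, hz, hk, hkL⟩ := h.ent (w, z, k) (List.mem_cons_self ..)
  simp only at hw hz hk hkL
  have hz' : stp z (x w k) = S w (k + 1) := by rw [hs, hz]
  rw [hz'] at hv ⊢
  have hqn := h.qn
  simp only [List.map_cons, List.nodup_cons] at hqn
  refine ⟨h.root, h.nd, h.len, ?_, ?_, ?_, ?_, ?_⟩
  · intro w' hw' j hj
    by_cases hww : w' = w
    · subst hww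
      rw [Function.update_self] at hj
      rcases Nat.lt_or_ge k j with h1 | h1
      · have : j = k + 1 := by omega
        subst this; exact hv
      · exact h.pos w' hw' j (by omega)
    · rw [Function.update_of_ne hww] at hj
      exact h.pos w' hw' j hj
  · intro w' hw'
    by_cases hww : w' = w
    · subst hww; left; simp
    · rw [Function.update_of_ne hww]
      rcases h.fin w' hw' with h1 | h1
      · left
        simp only [List.map_cons, List.mem_cons] at h1 ⊢
        exact h1
      · exact Or.inr h1
  · intro e he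
    rcases List.mem_cons.1 he with rfl | he
    · simp only [Function.update_self]
      exact ⟨hw, trivial, trivial, hL⟩
    · have hne : e.1 ≠ w := by
        intro hh
        exact hqn.1 (hh ▸ List.mem_map_of_mem he)
      rw [Function.update_of_ne hne]
      exact h.ent e (List.mem_cons_of_mem _ he)
  · simp only [List.map_cons, List.nodup_cons]
    exact hqn
  · have h1 := h.cn
    simp only at h1 ⊢
    have hwm : w ∈ vis.toFinset := List.mem_toFinset.2 hw
    rw [← add_sum_erase _ _ hwm] at h1 ⊢
    have h2 : ∑ w' ∈ vis.toFinset.erase w,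
        ((Icc 1 (Function.update K w (k + 1) w')).filter (fun j => S w' j = [])).card =
        ∑ w' ∈ vis.toFinset.erase w, ((Icc 1 (K w')).filter (fun j => S w' j = [])).card := by
      refine sum_congr rfl fun w' hw' => ?_
      rw [Function.update_of_ne (ne_of_mem_erase hw')]
    rw [h2, Function.update_self]
    have h3 : ((Icc 1 (k + 1)).filter (fun j => S w j = [])).card =
        ((Icc 1 k).filter (fun j => S w j = [])).card + if S w (k + 1) = [] then 1 else 0 := by
      rw [← insert_Icc_right_eq_Icc_add_one (by omega), filter_insert]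
      split_ifs with h4
      · rw [card_insert_of_notMem (by simp)]
      · rfl
    rw [h3]
    rw [← hk] at h1
    omega

include h0 hs in
lemma inv_new {K : Vx → ℕ} {w z : Vx} {k : ℕ} {q : List (Vx × Vx × ℕ)} {vis : List Vx} {cn : ℕ}
    (h : Inv n L S K ⟨(w, z, k) :: q, vis, cn⟩) (hL : k < L)
    (hl : (stp z (x w k)).length < n) (hv : stp z (x w k) ∉ vis) :
    Inv n L S (Function.update (Function.update K w (k + 1)) (stp z (x w k)) 0)
      ⟨(w, stp z (x w k), k + 1) :: (stp z (x w k), stp z (x w k), 0) :: q,
        stp z (x w k) :: vis, cn⟩ := by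
  obtain ⟨hw, hz, hk, hkL⟩ := h.ent (w, z, k) (List.mem_cons_self ..)
  simp only at hw hz hk hkL
  have hz' : stp z (x w k) = S w (k + 1) := by rw [hs, hz]
  generalize hu : stp z (x w k) = u at *
  have hqn := h.qn
  simp only [List.map_cons, List.nodup_cons] at hqn
  have huw : u ≠ w := fun hh => hv (hh ▸ hw)
  have hu0 : u ≠ [] := fun hh => hv (hh ▸ h.root)
  have hKw : Function.update (Function.update K w (k + 1)) u 0 w = k + 1 := by
    rw [Function.update_of_ne (Ne.symm huw), Function.update_self]
  have hKu : Function.update (Function.update K w (k + 1)) u 0 u = 0 := Function.update_self ..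
  have hKo : ∀ w', w' ≠ w → w' ≠ u →
      Function.update (Function.update K w (k + 1)) u 0 w' = K w' := by
    intro w' h1 h2
    rw [Function.update_of_ne h2, Function.update_of_ne h1]
  refine ⟨List.mem_cons_of_mem _ h.root, List.nodup_cons.2 ⟨hv, h.nd⟩, ?_, ?_, ?_, ?_, ?_, ?_⟩
  · intro w' hw'
    rcases List.mem_cons.1 hw' with rfl | hw'
    · exact hl
    · exact h.len w' hw'
  · intro w' hw' j hj
    by_cases hwu : w' = u
    · subst hwu
      rw [hKu] at hj
      have : j = 0 := by omega
      subst this
      rw [h0]; exact List.mem_cons_self ..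
    · have hw'' : w' ∈ vis := by
        rcases List.mem_cons.1 hw' with h1 | h1
        · exact absurd h1 hwu
        · exact h1
      by_cases hww : w' = w
      · subst hww
        rw [hKw] at hj
        rcases Nat.lt_or_ge k j with h1 | h1
        · have : j = k + 1 := by omega
          subst this; rw [← hz']; exact List.mem_cons_self ..
        · exact List.mem_cons_of_mem _ (h.pos w' hw'' j (by omega))
      · rw [hKo w' hww hwu] at hj
        exact List.mem_cons_of_mem _ (h.pos w' hw'' j hj)
  · intro w' hw'
    by_cases hwu : w' = u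
    · subst hwu; left; simp
    by_cases hww : w' = w
    · subst hww; left; simp
    rw [hKo w' hww hwu]
    have hw'' : w' ∈ vis := by
      rcases List.mem_cons.1 hw' with h1 | h1
      · exact absurd h1 hwu
      · exact h1
    rcases h.fin w' hw'' with h1 | h1
    · left
      simp only [List.map_cons, List.mem_cons] at h1 ⊢
      rcases h1 with h1 | h1
      · exact Or.inl h1
      · exact Or.inr (Or.inr h1)
    · exact Or.inr h1
  · intro e he
    rcases List.mem_cons.1 he with rfl | he
    · simp only [hKw]
      exact ⟨List.mem_cons_of_mem _ hw, hz', trivial, hL⟩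
    · rcases List.mem_cons.1 he with rfl | he
      · simp only [hKu]
        exact ⟨List.mem_cons_self .., (h0 u).symm, trivial, Nat.zero_le _⟩
      · have hne : e.1 ≠ w := by
          intro hh
          exact hqn.1 (hh ▸ List.mem_map_of_mem he)
        obtain ⟨e1, e2, e3, e4⟩ := h.ent e (List.mem_cons_of_mem _ he)
        have hne' : e.1 ≠ u := fun hh => hv (hh ▸ e1)
        rw [hKo _ hne hne']
        exact ⟨List.mem_cons_of_mem _ e1, e2, e3, e4⟩
  · simp only [List.map_cons, List.nodup_cons, List.mem_cons, not_or]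
    refine ⟨⟨Ne.symm huw, hqn.1⟩, ?_, hqn.2⟩
    intro hh
    obtain ⟨e, he, heu⟩ := List.mem_map.1 hh
    exact hv (heu ▸ (h.ent e (List.mem_cons_of_mem _ he)).1)
  · have h1 := h.cn
    simp only at h1 ⊢
    have hwm : w ∈ vis.toFinset := List.mem_toFinset.2 hw
    have hum : u ∉ vis.toFinset := fun hh => hv (List.mem_toFinset.1 hh)
    rw [List.toFinset_cons, sum_insert hum, hKu]
    rw [← add_sum_erase _ _ hwm] at h1 ⊢
    have h2 : ∑ w' ∈ vis.toFinset.erase w, ((Icc 1
        (Function.update (Function.update K w (k + 1)) u 0 w')).filter (fun j => S w' j = [])).card =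
        ∑ w' ∈ vis.toFinset.erase w, ((Icc 1 (K w')).filter (fun j => S w' j = [])).card := by
      refine sum_congr rfl fun w' hw' => ?_
      rw [hKo _ (ne_of_mem_erase hw') (fun hh => hum (hh ▸ mem_of_mem_erase hw'))]
    rw [h2, hKw]
    have h3 : ((Icc 1 (k + 1)).filter (fun j => S w j = [])).card =
        ((Icc 1 k).filter (fun j => S w j = [])).card := by
      rw [← insert_Icc_right_eq_Icc_add_one (by omega), filter_insert, if_neg]
      rw [← hz']; exact hu0
    rw [h3, ← hk] at *
    have h4 : (Icc 1 0 : Finset ℕ) = ∅ := by simp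
    simp only [h4, filter_empty, card_empty, zero_add]
    exact h1

include h0 hs in
theorem run (m : ℕ) : ∀ (t : Ex) (K : Vx → ℕ), Inv n L S K t → mu n L t ≤ m →
    (∃ K', Inv n L S K' (expl n L x m t)) ∧ (expl n L x m t).q = [] := by
  induction m with
  | zero =>
    intro t K h hm
    refine ⟨⟨K, h⟩, ?_⟩
    cases hq : t.q with
    | nil => simp [expl, hq]
    | cons e q =>
      exfalso
      have he : e ∈ t.q := by rw [hq]; exact List.mem_cons_self ..
      obtain ⟨_, _, h3, h4⟩ := h.ent e he
      unfold mu at hm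
      rw [hq, List.map_cons, List.sum_cons] at hm
      omega
  | succ m ih =>
    intro t K h hm
    obtain ⟨q, vis, cn⟩ := t
    cases q with
    | nil =>
      have : expl n L x (m + 1) ⟨[], vis, cn⟩ = ⟨[], vis, cn⟩ := rfl
      rw [this]
      exact ⟨⟨K, h⟩, rfl⟩
    | cons e q =>
      obtain ⟨w, z, k⟩ := e
      obtain ⟨hw, hz, hk, hkL⟩ := h.ent (w, z, k) (List.mem_cons_self ..)
      simp only at hw hz hk hkL
      have hmu : L + 1 - k + (q.map (fun e => L + 1 - e.2.2)).sum +
          (L + 1) * (4 ^ n - vis.length) ≤ m + 1 := by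
        unfold mu at hm
        simpa [List.map_cons, List.sum_cons] using hm
      have hex : expl n L x (m + 1) ⟨(w, z, k) :: q, vis, cn⟩ =
          if L ≤ k then expl n L x m ⟨q, vis, cn⟩
          else expl n L x m (adv n w k (stp z (x w k)) q vis cn) := rfl
      rw [hex]
      by_cases hLk : L ≤ k
      · rw [if_pos hLk]
        refine ih _ K (inv_drop h (Or.inl (by omega))) ?_
        unfold mu
        simp only
        omega
      · rw [if_neg hLk]
        have hz' : stp z (x w k) = S w (k + 1) := by rw [hs, hz]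
        unfold adv
        by_cases hl : n ≤ (stp z (x w k)).length
        · rw [if_pos hl]
          refine ih _ K (inv_drop h (Or.inr ?_)) ?_
          · rw [← hk, ← hz']; exact hl
          · unfold mu
            simp only
            omega
        · rw [if_neg hl]
          by_cases hv : stp z (x w k) ∈ vis
          · rw [if_pos hv]
            refine ih _ _ (inv_old hs h (by omega) hv) ?_
            unfold mu
            simp only [List.map_cons, List.sum_cons]
            omega
          · rw [if_neg hv]
            have hnew := inv_new h0 hs h (by omega) (by omega) hv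
            refine ih _ _ hnew ?_
            have hlen := length_le hnew.nd hnew.len
            simp only [List.length_cons] at hlen
            unfold mu
            simp only [List.map_cons, List.sum_cons, List.length_cons]
            have h5 : 4 ^ n - vis.length = (4 ^ n - (vis.length + 1)) + 1 := by omega
            rw [h5, Nat.mul_add, Nat.mul_one] at hmu
            omega

end

theorem main : S_PATH := by
  intro x S h0 hs F hF
  -- the final state
  have hfin : ∀ n, 1 ≤ n → ∃ K, Inv n n S K (expl n n x (fuel n) ex0) ∧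
      (expl n n x (fuel n) ex0).q = [] := by
    intro n hn
    have hi : Inv n n S (fun _ => 0) ex0 := by
      refine ⟨by simp [ex0], by simp [ex0], ?_, ?_, ?_, ?_, by simp [ex0], ?_⟩
      · intro w hw
        simp only [ex0, List.mem_singleton] at hw
        subst hw
        show 0 < n
        omega
      · intro w hw j hj
        simp only [ex0, List.mem_singleton] at hw ⊢
        subst hw
        have : j = 0 := by omega
        subst this; exact h0 _
      · intro w hw
        left
        simpa [ex0] using hw
      · intro e he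
        simp only [ex0, List.mem_singleton] at he ⊢
        subst he
        exact ⟨rfl, (h0 _).symm, rfl, Nat.zero_le _⟩
      · simp [ex0]
    have hmu : mu n n ex0 ≤ fuel n := by
      have h4 : 1 ≤ 4 ^ n := Nat.one_le_pow _ _ (by norm_num)
      unfold mu fuel ex0
      simp only [List.map_cons, List.map_nil, List.sum_cons, List.sum_nil, List.length_cons,
        List.length_nil]
      have h5 : (n + 1) * (4 ^ n - (0 + 1)) + (n + 1) = 4 ^ n * (n + 1) := by
        have h6 : 4 ^ n = (4 ^ n - (0 + 1)) + 1 := by omega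
        calc (n + 1) * (4 ^ n - (0 + 1)) + (n + 1) = (n + 1) * ((4 ^ n - (0 + 1)) + 1) := by ring
          _ = (n + 1) * 4 ^ n := by rw [← h6]
          _ = 4 ^ n * (n + 1) := by ring
      omega
    obtain ⟨⟨K, hK⟩, hq⟩ := run (n := n) (L := n) h0 hs (fuel n) ex0 _ hi hmu
    exact ⟨K, hK, hq⟩
  -- a frog found makes its first steps
  have key : ∀ (v : Vx) (k : ℕ), ∃ N, ∀ n, N ≤ n → ∀ K, Inv n n S K (expl n n x (fuel n) ex0) →
      (expl n n x (fuel n) ex0).q = [] → v ∈ (expl n n x (fuel n) ex0).vis → k ≤ K v := by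
    intro v k
    refine ⟨k + 1 + ∑ j ∈ range (k + 1), ((S v j).length + 1), ?_⟩
    intro n hn K hK hq hv
    by_contra hlt
    push Not at hlt
    rcases hK.fin v hv with h1 | h1 | h1
    · rw [hq] at h1; simp at h1
    · omega
    · have h2 : (S v (K v + 1)).length + 1 ≤ ∑ j ∈ range (k + 1), ((S v j).length + 1) :=
        single_le_sum (f := fun j => (S v j).length + 1) (fun _ _ => Nat.zero_le _)
          (mem_range.2 (by omega))
      omega
  -- every awake frog is found
  have hA : ∀ q ∈ F, ∃ N, ∀ n, N ≤ n → q.1 ∈ (expl n n x (fuel n) ex0).vis := by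
    intro q hq
    refine (hF q hq).1 {v | ∃ N, ∀ n, N ≤ n → v ∈ (expl n n x (fuel n) ex0).vis} ?_ ?_
    · refine ⟨1, fun n hn => ?_⟩
      obtain ⟨K, hK, _⟩ := hfin n hn
      exact hK.root
    · rintro v ⟨N, hN⟩ k
      obtain ⟨N', hN'⟩ := key v k
      refine ⟨max 1 (max N N'), fun n hn => ?_⟩
      obtain ⟨K, hK, hq'⟩ := hfin n (le_trans (le_max_left _ _) hn)
      have hv := hN n (le_trans (le_trans (le_max_left _ _) (le_max_right _ _)) hn)
      exact hK.pos v hv k (hN' n (le_trans (le_trans (le_max_right _ _) (le_max_right _ _)) hn)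
        K hK hq' hv)
  choose! N1 hN1 using hA
  have hB : ∀ q : Vx × ℕ, ∃ N, ∀ n, N ≤ n → ∀ K, Inv n n S K (expl n n x (fuel n) ex0) →
      (expl n n x (fuel n) ex0).q = [] → q.1 ∈ (expl n n x (fuel n) ex0).vis → q.2 ≤ K q.1 :=
    fun q => key q.1 q.2
  choose N2 hN2 using hB
  refine ⟨1 + ∑ q ∈ F, (N1 q + N2 q), fun n hn => ?_⟩
  obtain ⟨K, hK, hq⟩ := hfin n (by omega)
  have hle : ∀ q ∈ F, N1 q + N2 q ≤ n := by
    intro q hqF
    have := single_le_sum (f := fun q => N1 q + N2 q) (fun _ _ => Nat.zero_le _) hqF
    have h9 : (fun q => N1 q + N2 q) q = N1 q + N2 q := rfl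
    omega
  have h1 : (F.filter (fun q => 1 ≤ q.2)).card ≤
      ∑ w ∈ (expl n n x (fuel n) ex0).vis.toFinset,
        ((Icc 1 (K w)).filter (fun j => S w j = [])).card := by
    rw [← card_sigma]
    refine card_le_card_of_injOn (fun q => ⟨q.1, q.2⟩) ?_ ?_
    · intro q hqF
      obtain ⟨hqF1, hqF2⟩ := mem_filter.1 (mem_coe.1 hqF)
      have h2 := hle q hqF1
      have h3 := hN1 q hqF1 n (by omega)
      have h4 := hN2 q n (by omega) K hK hq h3
      simp only [coe_sigma, Set.mem_sigma_iff, mem_coe, List.mem_toFinset, mem_filter, mem_Icc]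
      exact ⟨h3, ⟨hqF2, h4⟩, (hF q hqF1).2⟩
    · intro q _ q' _ hqq
      simp only [Sigma.mk.injEq] at hqq
      exact Prod.ext hqq.1 (eq_of_heq hqq.2)
  have h2 : F.card ≤ (F.filter (fun q => 1 ≤ q.2)).card + 1 := by
    have h3 := card_filter_add_card_filter_not (s := F) (fun q => 1 ≤ q.2)
    have h4 : (F.filter (fun q => ¬ 1 ≤ q.2)).card ≤ 1 := by
      rw [card_le_one]
      intro a ha b hb
      have key2 : ∀ a ∈ F.filter (fun q => ¬ 1 ≤ q.2), a = ([], 0) := by
        intro a ha
        obtain ⟨ha1, ha2⟩ := mem_filter.1 ha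
        have h5 : a.2 = 0 := by omega
        have h6 := (hF a ha1).2
        rw [h5, h0] at h6
        exact Prod.ext h6 h5
      rw [key2 a ha, key2 b hb]
    omega
  have h3 := hK.cn
  omega

end Pool.Agent.U319.FR.PATHJ

namespace Pool.Agent.U319.FR

theorem path : S_PATH := PATHJ.main

end Pool.Agent.U319.FR
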