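import Pool.Agent.U319.FR.Stm

/-!
# Job ROOT: the value of the start is bounded

`ww m f c` is the greatest value of one frog at the root when the subtree of the child `j` has
label at least `c j`. The domination lemma gives `ww c ≤ ∑ j, (1/4) M (c j) (1 + ww c')`, where
`c'` is `c` with `c j` replaced by `max 1 (c j)`, and the means satisfy `M 0 ≤ 1`, `M 1 ≤ 11/20`.
-/

set_option autoImplicit false

open scoped ENNReal
open Finset

namespace Pool.Agent.U319.FR.ROOT

/-- Labels decrease. -/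
theorem lab_mono (m s s' : ℕ) (v : Vx) (A : Set Vx) (h : s' ≤ s) (hl : Lab m s v A) :
    Lab m s' v A := by
  cases m with
  | zero => rw [Lab]; trivial
  | succ m =>
    rw [Lab] at hl ⊢
    rcases hl with rfl | ⟨h1, h2⟩
    · left; omega
    · right; exact ⟨h1, by omega⟩

open Classical in
/-- Labels depend on the visited vertices of the subtree only. -/
theorem lab_loc (m : ℕ) : ∀ (s : ℕ) (v : Vx) (A B : Set Vx),
    (∀ z, v <:+ z → (z ∈ A ↔ z ∈ B)) → Lab m s v A → Lab m s v B := by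
  induction m with
  | zero => intro s v A B _ _; rw [Lab]; trivial
  | succ m ih =>
    intro s v A B h hl
    have hj : ∀ j : Fin 4, Lab m 2 (j :: v) A ↔ Lab m 2 (j :: v) B := by
      intro j
      have h' : ∀ z, (j :: v) <:+ z → (z ∈ A ↔ z ∈ B) := fun z hz =>
        h z ((List.suffix_cons j v).trans hz)
      exact ⟨ih 2 (j :: v) A B h', ih 2 (j :: v) B A fun z hz => (h' z hz).symm⟩
    rw [Lab] at hl ⊢
    rcases hl with rfl | ⟨h1, h2⟩
    · left; rfl
    · right
      refine ⟨(h v List.suffix_rfl).1 h1, ?_⟩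
      have hc : (Finset.univ.filter fun j : Fin 4 => Lab m 2 (j :: v) A) =
          (Finset.univ.filter fun j : Fin 4 => Lab m 2 (j :: v) B) := by
        apply Finset.filter_congr
        intro j _
        exact hj j
      rw [← hc]
      exact h2

/-- No frogs: value zero. -/
theorem V_zero (n f : ℕ) (B : Set Vx) : V n f ⟨dl [] 0, B⟩ = 0 := by
  cases f with
  | zero => rfl
  | succ f =>
    rw [V]
    simp [dl]

theorem V_mul (hU : S_VSUB) (n f : ℕ) (B : Set Vx) (y : ℕ) :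
    V n f ⟨dl [] y, B⟩ ≤ (y : ℝ≥0∞) * V n f ⟨dl [] 1, B⟩ := by
  induction y with
  | zero => rw [V_zero]; simp
  | succ y ih =>
    have h := hU n f ⟨dl [] y, B⟩ ⟨dl [] 1, B⟩
    have he : Cf.join ⟨dl [] y, B⟩ ⟨dl [] 1, B⟩ = ⟨dl [] (y + 1), B⟩ := by
      unfold Cf.join
      ext x
      · simp only [dl]; split_ifs <;> simp
      · simp
    rw [he] at h
    calc V n f ⟨dl [] (y + 1), B⟩ ≤ V n f ⟨dl [] y, B⟩ + V n f ⟨dl [] 1, B⟩ := h
      _ ≤ (y : ℝ≥0∞) * V n f ⟨dl [] 1, B⟩ + V n f ⟨dl [] 1, B⟩ := by gcongr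
      _ = ((y + 1 : ℕ) : ℝ≥0∞) * V n f ⟨dl [] 1, B⟩ := by push_cast; ring

/-- Greatest value of one frog at the root, the subtrees of the children having labels `c`. -/
noncomputable def ww (m f : ℕ) (c : Fin 4 → ℕ) : ℝ≥0∞ :=
  ⨆ B : Set Vx, ⨆ _ : [] ∈ B ∧ ∀ j, Lab m (c j) [j] B, V (m + 1) f ⟨dl [] 1, B⟩

theorem ww_fin (hF : S_VFIN) (m f : ℕ) (c : Fin 4 → ℕ) : ww m f c ≠ ⊤ := by
  have : ww m f c ≤ f := iSup_le fun B => iSup_le fun _ => hF _ _ _
  exact ne_top_of_le_ne_top (ENNReal.natCast_ne_top f) this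

/-- The mean in `[0, ∞]`. -/
noncomputable def ME (a : ℕ) : ℝ≥0∞ := KE a (fun y _ => (y : ℝ≥0∞)) + TE a (fun _ => 1)

theorem ME_eq (hT : S_TAB) (a : ℕ) : ME a = ENNReal.ofReal (Mn a) := by
  have hSC : (0 : ℝ) < (SC : ℝ) := by exact_mod_cast hT.1
  unfold ME Mn KE TE KV TV
  rw [ENNReal.ofReal_add, ENNReal.ofReal_sum_of_nonneg, ENNReal.ofReal_sum_of_nonneg]
  · congr 1
    · refine Finset.sum_congr rfl fun s _ => ?_
      rw [ENNReal.ofReal_sum_of_nonneg]
      · refine Finset.sum_congr rfl fun y _ => ?_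
        rw [ENNReal.ofReal_mul (by positivity), ENNReal.ofReal_div_of_pos hSC,
          ENNReal.ofReal_natCast, ENNReal.ofReal_natCast, ENNReal.ofReal_natCast]
      · intro y _; positivity
    · refine Finset.sum_congr rfl fun s _ => ?_
      rw [ENNReal.ofReal_mul (by positivity), ENNReal.ofReal_div_of_pos hSC,
          ENNReal.ofReal_natCast, ENNReal.ofReal_natCast, ENNReal.ofReal_one]
  · intro s _; positivity
  · intro s _; positivity
  · positivity
  · positivity

/-- Average of `y w`. -/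
theorem KE_le (hT : S_TAB) (a : ℕ) (g : ℕ → ℕ → ℝ≥0∞) (h : ℕ → ℝ≥0∞) (w : ℝ≥0∞)
    (hg : ∀ y s, a ≤ s → 1 ≤ s → g y s ≤ (y : ℝ≥0∞) * w)
    (hh : ∀ s, a ≤ s → 1 ≤ s → h s ≤ w) :
    KE a g + TE a h ≤ ME a * w := by
  unfold ME
  rw [add_mul]
  refine add_le_add ?_ ?_
  · unfold KE
    rw [Finset.sum_mul]
    refine Finset.sum_le_sum fun s hs => ?_
    rw [Finset.sum_mul]
    refine Finset.sum_le_sum fun y _ => ?_
    have hs1 : 1 ≤ s := (Finset.mem_Icc.1 hs).1
    rcases lt_or_ge s a with h1 | h1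
    · rw [hT.2.2.1 a s y h1]; simp
    · rw [mul_assoc]
      exact mul_le_mul_right (hg y s h1 hs1) _
  · unfold TE
    rw [Finset.sum_mul]
    refine Finset.sum_le_sum fun s hs => ?_
    have hs1 : 1 ≤ s := (Finset.mem_Icc.1 hs).1
    rcases lt_or_ge s a with h1 | h1
    · rw [hT.2.2.2.1 a s h1]; simp
    · rw [mul_assoc, one_mul]
      exact mul_le_mul_right (hh s h1 hs1) _

/-- The recursion at the root. -/
theorem V_rec (hD : S_DOM) (hT : S_TAB) (hS : S_VSTEP) (hU : S_VSUB) (m f : ℕ) (c : Fin 4 → ℕ)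
    (hc : ∀ j, c j ≤ 5) (B : Set Vx) (hB : [] ∈ B) (hL : ∀ j, Lab m (c j) [j] B) :
    V (m + 1) f ⟨dl [] 1, B⟩ ≤ ∑ j : Fin 4, (1 / 4) *
      (ME (c j) * (1 + ww m f (Function.update c j (max 1 (c j))))) := by
  have h1 := hS (m + 1) f ⟨dl [] 1, B⟩ [] (by simp [dl])
  refine h1.trans ?_
  rw [mv]
  refine Finset.sum_le_sum fun j _ => mul_le_mul_right ?_ _
  have hr : rmv [] ⟨dl [] 1, B⟩ = ⟨fun _ => 0, B⟩ := by
    unfold rmv
    simp
  rw [hr]
  have h2 := hD m (m + 1) f j [] (by simp; omega) (fun _ => 0) B hB (fun _ _ => rfl) (c j) (hc j)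
    (hL j)
  refine h2.trans ?_
  set W := 1 + ww m f (Function.update c j (max 1 (c j))) with hW
  have key : ∀ y s, c j ≤ s → 1 ≤ s →
      WW (m + 1) f [j] [] (fun _ => 0) B m y s ≤ (y : ℝ≥0∞) * W := by
    intro y s hs hs1
    unfold WW
    rw [if_pos rfl, hW, mul_add, mul_one]
    refine add_le_add le_rfl ?_
    refine iSup_le fun B2 => iSup_le fun hB2 => ?_
    obtain ⟨⟨ho1, ho2⟩, hl2⟩ := hB2
    have he : (fun x => 0 + dl [] y x) = dl [] y := by funext x; simp
    rw [he]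
    refine (V_mul hU (m + 1) f B2 y).trans ?_
    refine mul_le_mul_right ?_ _
    refine le_iSup₂_of_le B2 ⟨ho1 hB, ?_⟩ le_rfl
    intro i
    by_cases hij : i = j
    · subst hij
      rw [Function.update_self]
      exact lab_mono m s _ _ _ (max_le hs1 hs) hl2
    · rw [Function.update_of_ne hij]
      refine lab_loc m (c i) [i] B B2 ?_ (hL i)
      intro z hz
      refine (ho2 z ?_).symm
      intro hz'
      -- two different children of the root have disjoint subtrees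
      obtain ⟨t, rfl⟩ := hz
      obtain ⟨t', ht'⟩ := hz'
      have := congrArg List.getLast? ht'
      simp at this
      exact hij this.symm
  refine KE_le hT (c j) _ _ W key ?_
  intro s hs hs1
  have := key 1 s hs hs1
  unfold RR
  simpa using this

theorem ww_rec (hD : S_DOM) (hT : S_TAB) (hS : S_VSTEP) (hU : S_VSUB) (m f : ℕ) (c : Fin 4 → ℕ)
    (hc : ∀ j, c j ≤ 5) :
    ww m f c ≤ ∑ j : Fin 4, (1 / 4) *
      (ME (c j) * (1 + ww m f (Function.update c j (max 1 (c j))))) := by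
  refine iSup_le fun B => iSup_le fun hB => ?_
  exact V_rec hD hT hS hU m f c hc B hB.1 hB.2

/-- Labels zero on `Z` and one elsewhere. -/
def cZ (Z : Finset (Fin 4)) (j : Fin 4) : ℕ := if j ∈ Z then 0 else 1

/-- The bounds. -/
def M : ℕ → ℝ
  | 0 => 4
  | k + 1 => 4 + 3 * M k

theorem M_pos (k : ℕ) : 0 ≤ M k := by
  induction k with
  | zero => simp [M]
  | succ k ih => rw [M]; positivity

theorem ME0 (hT : S_TAB) : ME 0 ≤ 1 := by
  rw [ME_eq hT]
  rw [← ENNReal.ofReal_one]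
  exact ENNReal.ofReal_le_ofReal (hT.2.2.2.2.1.trans (by norm_num))

theorem ME1 (hT : S_TAB) : ME 1 ≤ ENNReal.ofReal (11 / 20) := by
  rw [ME_eq hT]
  exact ENNReal.ofReal_le_ofReal ((hT.2.2.2.2.2 1 le_rfl (by norm_num)).trans (by norm_num))

theorem solve (w M' : ℝ≥0∞) (hw : w ≠ ⊤) (hM' : M' ≠ ⊤)
    (h : w ≤ (1 + M') + ENNReal.ofReal (11 / 20) * (1 + w)) : w ≤ 4 + 3 * M' := by
  have h1 : ((1 + M') + ENNReal.ofReal (11 / 20) * (1 + w)).toReal =
      (1 + M'.toReal) + 11 / 20 * (1 + w.toReal) := by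
    rw [ENNReal.toReal_add, ENNReal.toReal_add, ENNReal.toReal_mul, ENNReal.toReal_add,
      ENNReal.toReal_ofReal, ENNReal.toReal_one]
    · norm_num
    · simp
    · exact hw
    · simp
    · exact hM'
    · exact ENNReal.add_ne_top.2 ⟨by simp, hM'⟩
    · exact ENNReal.mul_ne_top (by simp) (ENNReal.add_ne_top.2 ⟨by simp, hw⟩)
  have h2 := ENNReal.toReal_mono (by
    exact ENNReal.add_ne_top.2 ⟨ENNReal.add_ne_top.2 ⟨by simp, hM'⟩,
      ENNReal.mul_ne_top (by simp) (ENNReal.add_ne_top.2 ⟨by simp, hw⟩)⟩) h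
  rw [h1] at h2
  have h3 : (4 + 3 * M').toReal = 4 + 3 * M'.toReal := by
    rw [ENNReal.toReal_add, ENNReal.toReal_mul]
    · simp
    · simp
    · exact ENNReal.mul_ne_top (by simp) hM'
  rw [← ENNReal.toReal_le_toReal hw
    (ENNReal.add_ne_top.2 ⟨by simp, ENNReal.mul_ne_top (by simp) hM'⟩), h3]
  have h4 : 0 ≤ M'.toReal := ENNReal.toReal_nonneg
  nlinarith

theorem quarter (x : ℝ≥0∞) : ∑ _j : Fin 4, (1 / 4 : ℝ≥0∞) * x = x := by
  rw [Finset.sum_const, Finset.card_univ, Fintype.card_fin, nsmul_eq_mul, ← mul_assoc]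
  have : ((4 : ℕ) : ℝ≥0∞) * (1 / 4) = 1 := by
    rw [mul_one_div]
    exact ENNReal.div_self (by norm_num) (by simp)
  rw [this, one_mul]

/-- One step of the induction on the number of labels zero. -/
theorem bound_step (hD : S_DOM) (hT : S_TAB) (hF : S_VFIN) (hS : S_VSTEP) (hU : S_VSUB)
    (m f : ℕ) (Z : Finset (Fin 4)) (M' : ℝ≥0∞) (hM' : M' ≠ ⊤)
    (hZ : ∀ j ∈ Z, ww m f (cZ (Z.erase j)) ≤ M') :
    ww m f (cZ Z) ≤ 4 + 3 * M' := by
  have h := ww_rec hD hT hS hU m f (cZ Z) (fun j => by unfold cZ; split_ifs <;> omega)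
  refine solve _ M' (ww_fin hF m f _) hM' (h.trans ?_)
  refine le_trans (Finset.sum_le_sum fun j _ => mul_le_mul_right (?_ : _ ≤
    (1 + M') + ENNReal.ofReal (11 / 20) * (1 + ww m f (cZ Z))) _) (quarter _).le
  by_cases hj : j ∈ Z
  · have h0 : cZ Z j = 0 := by simp [cZ, hj]
    have h1 : Function.update (cZ Z) j (max 1 (cZ Z j)) = cZ (Z.erase j) := by
      funext i
      by_cases hij : i = j
      · subst hij
        rw [Function.update_self, h0]
        simp [cZ]
      · rw [Function.update_of_ne hij]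
        simp [cZ, hij]
    rw [h1, h0]
    calc ME 0 * (1 + ww m f (cZ (Z.erase j))) ≤ 1 * (1 + M') :=
          mul_le_mul' (ME0 hT) (add_le_add le_rfl (hZ j hj))
      _ = 1 + M' := one_mul _
      _ ≤ _ := le_self_add
  · have h0 : cZ Z j = 1 := by simp [cZ, hj]
    have h1 : Function.update (cZ Z) j (max 1 (cZ Z j)) = cZ Z := by
      rw [h0, max_self, ← h0, Function.update_eq_self]
    rw [h1, h0]
    exact (mul_le_mul_left (ME1 hT) _).trans le_add_self

theorem bound (hD : S_DOM) (hT : S_TAB) (hF : S_VFIN) (hS : S_VSTEP) (hU : S_VSUB) (m f : ℕ)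
    (k : ℕ) : ∀ Z : Finset (Fin 4), Z.card = k → ww m f (cZ Z) ≤ ENNReal.ofReal (M k) := by
  induction k with
  | zero =>
    intro Z hZ
    have hZ' : Z = ∅ := Finset.card_eq_zero.1 hZ
    subst hZ'
    have := bound_step hD hT hF hS hU m f ∅ 0 (by simp) (by simp)
    refine this.trans ?_
    simp [M]
  | succ k ih =>
    intro Z hZ
    have := bound_step hD hT hF hS hU m f Z (ENNReal.ofReal (M k)) (by simp) (by
      intro j hj
      exact ih _ (by rw [Finset.card_erase_of_mem hj, hZ]; rfl))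
    refine this.trans ?_
    have h1 := M_pos k
    rw [M, ENNReal.ofReal_add (by norm_num) (by positivity), ENNReal.ofReal_mul (by norm_num)]
    simp

theorem root (hD : S_DOM) (hT : S_TAB) (hF : S_VFIN) (hS : S_VSTEP) (hU : S_VSUB)
    (_hM : S_VMONO) : S_ROOT := by
  refine ⟨ENNReal.ofReal (M 4), by simp, ?_⟩
  intro n f hn
  obtain ⟨m, rfl⟩ : ∃ m, n = m + 1 := ⟨n - 1, by omega⟩
  refine le_trans ?_ (bound hD hT hF hS hU m f 4 Finset.univ (by simp))
  refine le_iSup₂_of_le {[]} ⟨rfl, ?_⟩ le_rfl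
  intro j
  have : cZ Finset.univ j = 0 := by simp [cZ]
  rw [this]
  cases m with
  | zero => rw [Lab]; trivial
  | succ m => rw [Lab]; left; rfl

end Pool.Agent.U319.FR.ROOT
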