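import Pool.Agent.U319.FR.StmD

/-!
# Frog model on the rooted 4-ary tree: the system of inequalities at a vertex (job SYS)
-/

set_option autoImplicit false

open scoped ENNReal
open Finset

namespace Pool.Agent.U319.FR.SysAux

theorem dl_same (z : Vx) (k : ℕ) : dl z k z = k := by
  unfold dl
  rw [if_pos rfl]

theorem dl_other {z x : Vx} (k : ℕ) (h : x ≠ z) : dl z k x = 0 := by
  unfold dl
  rw [if_neg h]

theorem dl_add (z : Vx) (k l : ℕ) (x : Vx) : dl z (k + l) x = dl z k x + dl z l x := by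
  unfold dl
  split_ifs <;> simp

theorem dl_zero (z x : Vx) : dl z 0 x = 0 := by
  unfold dl
  split_ifs <;> rfl

/-- the supremum in `HH` -/
noncomputable def HS (n f : ℕ) (v p : Vx) (cnt : Vx → ℕ) (A : Set Vx) (m k : ℕ) (c : Fin 4 → ℕ)
    (e : ℕ) : ℝ≥0∞ :=
  ⨆ B : Set Vx, ⨆ _ : Env v A m c B, V n f ⟨fun x => cnt x + dl v k x + dl p e x, B⟩

/-- the constant in `HH` and `WW` -/
noncomputable def CC (p : Vx) (e : ℕ) : ℝ≥0∞ := if p = [] then (e : ℝ≥0∞) else 0

theorem HH_eq (n f : ℕ) (v p : Vx) (cnt : Vx → ℕ) (A : Set Vx) (m k : ℕ) (c : Fin 4 → ℕ)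
    (e : ℕ) : HH n f v p cnt A m k c e = CC p e + HS n f v p cnt A m k c e := by
  unfold HH CC HS
  congr 1

theorem WW_eq (n f : ℕ) (v p : Vx) (cnt : Vx → ℕ) (A : Set Vx) (m e s : ℕ) :
    WW n f v p cnt A m e s = CC p e +
      ⨆ B : Set Vx, ⨆ _ : Out v A B ∧ Lab m s v B, V n f ⟨fun x => cnt x + dl p e x, B⟩ := by
  unfold WW CC
  congr 1

theorem CC_add (p : Vx) (e e' : ℕ) : CC p (e + e') = CC p e + CC p e' := by
  unfold CC
  split_ifs <;> simp

theorem CC_le (p : Vx) (e : ℕ) : CC p e ≤ e := by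
  unfold CC
  split_ifs <;> simp

theorem HS_le (h1 : S_VFIN) (n f : ℕ) (v p : Vx) (cnt : Vx → ℕ) (A : Set Vx) (m k : ℕ)
    (c : Fin 4 → ℕ) (e : ℕ) : HS n f v p cnt A m k c e ≤ f :=
  iSup₂_le fun _ _ => h1 _ _ _

theorem HH_fin (h1 : S_VFIN) (n f : ℕ) (v p : Vx) (cnt : Vx → ℕ) (A : Set Vx) (m k : ℕ)
    (c : Fin 4 → ℕ) (e : ℕ) : HH n f v p cnt A m k c e ≠ ⊤ := by
  rw [HH_eq]
  exact ENNReal.add_ne_top.2 ⟨ne_top_of_le_ne_top (by simp) (CC_le p e),
    ne_top_of_le_ne_top (by simp) (HS_le h1 n f v p cnt A m k c e)⟩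

theorem WW_fin (h1 : S_VFIN) (n f : ℕ) (v p : Vx) (cnt : Vx → ℕ) (A : Set Vx) (m e s : ℕ) :
    WW n f v p cnt A m e s ≠ ⊤ := by
  rw [WW_eq]
  refine ENNReal.add_ne_top.2 ⟨ne_top_of_le_ne_top (by simp) (CC_le p e), ?_⟩
  exact ne_top_of_le_ne_top (ENNReal.natCast_ne_top f) (iSup₂_le fun _ _ => h1 _ _ _)

theorem XX_fin (h1 : S_VFIN) (n f : ℕ) (v : Vx) (A : Set Vx) (m s : ℕ) :
    XX n f v A m s ≠ ⊤ := by
  unfold XX
  exact ne_top_of_le_ne_top (ENNReal.natCast_ne_top f) (iSup₂_le fun _ _ => h1 _ _ _)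

theorem le_HS {n f : ℕ} {v p : Vx} {cnt : Vx → ℕ} {A : Set Vx} {m k : ℕ}
    {c : Fin 4 → ℕ} {e : ℕ} {B : Set Vx} (h : Env v A m c B) :
    V n f ⟨fun x => cnt x + dl v k x + dl p e x, B⟩ ≤ HS n f v p cnt A m k c e :=
  le_iSup₂_of_le B h le_rfl

/-! ### The operators `KE`, `TE` -/

theorem KE_mono (a : ℕ) {g g' : ℕ → ℕ → ℝ≥0∞} (h : ∀ y s, g y s ≤ g' y s) :
    KE a g ≤ KE a g' := by
  unfold KE
  gcongr with s _ y _
  exact h y s

theorem TE_mono (a : ℕ) {g g' : ℕ → ℝ≥0∞} (h : ∀ s, g s ≤ g' s) : TE a g ≤ TE a g' := by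
  unfold TE
  gcongr with s _
  exact h s

theorem KE_const (ht : S_TAB) {a : ℕ} (ha : a ≤ 5) (C : ℝ≥0∞) (g : ℕ → ℕ → ℝ≥0∞) :
    KE a (fun y s => C + g y s) = C + KE a g := by
  obtain ⟨h0, h1, -⟩ := ht
  have h2 : ∑ s ∈ Icc 1 5, ∑ y ∈ range 7, (K a s y : ℝ≥0∞) / (SC : ℝ≥0∞) = 1 := by
    have h3 : ∑ s ∈ Icc 1 5, ∑ y ∈ range 7, (K a s y : ℝ≥0∞) / (SC : ℝ≥0∞) =
        ((∑ s ∈ Icc 1 5, ∑ y ∈ range 7, K a s y : ℕ) : ℝ≥0∞) / (SC : ℝ≥0∞) := by
      push_cast
      simp only [div_eq_mul_inv, Finset.sum_mul]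
    rw [h3, h1 a ha]
    exact ENNReal.div_self (by exact_mod_cast h0.ne') (ENNReal.natCast_ne_top _)
  unfold KE
  simp only [mul_add, Finset.sum_add_distrib]
  congr 1
  calc ∑ s ∈ Icc 1 5, ∑ y ∈ range 7, (K a s y : ℝ≥0∞) / (SC : ℝ≥0∞) * C =
      (∑ s ∈ Icc 1 5, ∑ y ∈ range 7, (K a s y : ℝ≥0∞) / (SC : ℝ≥0∞)) * C := by
        simp only [Finset.sum_mul]
    _ = C := by rw [h2, one_mul]

theorem KE_toReal (a : ℕ) {g : ℕ → ℕ → ℝ≥0∞} (h : ∀ y s, g y s ≠ ⊤) (h0 : 0 < SC) :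
    (KE a g).toReal = KV a (fun y s => (g y s).toReal) := by
  unfold KE KV
  have hS : (SC : ℝ≥0∞) ≠ 0 := by exact_mod_cast h0.ne'
  have h1 : ∀ s y, (K a s y : ℝ≥0∞) / (SC : ℝ≥0∞) * g y s ≠ ⊤ := fun s y =>
    ENNReal.mul_ne_top (ENNReal.div_ne_top (ENNReal.natCast_ne_top _) hS) (h y s)
  rw [ENNReal.toReal_sum (fun s _ => ENNReal.sum_ne_top.2 fun y _ => h1 s y)]
  refine Finset.sum_congr rfl fun s _ => ?_
  rw [ENNReal.toReal_sum (fun y _ => h1 s y)]
  refine Finset.sum_congr rfl fun y _ => ?_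
  rw [ENNReal.toReal_mul, ENNReal.toReal_div]
  simp

theorem TE_toReal (a : ℕ) {g : ℕ → ℝ≥0∞} (h : ∀ s, g s ≠ ⊤) (h0 : 0 < SC) :
    (TE a g).toReal = TV a (fun s => (g s).toReal) := by
  unfold TE TV
  have hS : (SC : ℝ≥0∞) ≠ 0 := by exact_mod_cast h0.ne'
  have h1 : ∀ s, (T a s : ℝ≥0∞) / (SC : ℝ≥0∞) * g s ≠ ⊤ := fun s =>
    ENNReal.mul_ne_top (ENNReal.div_ne_top (ENNReal.natCast_ne_top _) hS) (h s)
  rw [ENNReal.toReal_sum (fun s _ => h1 s)]
  refine Finset.sum_congr rfl fun s _ => ?_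
  rw [ENNReal.toReal_mul, ENNReal.toReal_div]
  simp

theorem KE_ne_top (a : ℕ) {g : ℕ → ℕ → ℝ≥0∞} (h : ∀ y s, g y s ≠ ⊤) (h0 : 0 < SC) :
    KE a g ≠ ⊤ := by
  unfold KE
  have hS : (SC : ℝ≥0∞) ≠ 0 := by exact_mod_cast h0.ne'
  exact ENNReal.sum_ne_top.2 fun s _ => ENNReal.sum_ne_top.2 fun y _ =>
    ENNReal.mul_ne_top (ENNReal.div_ne_top (ENNReal.natCast_ne_top _) hS) (h y s)

theorem TE_ne_top (a : ℕ) {g : ℕ → ℝ≥0∞} (h : ∀ s, g s ≠ ⊤) (h0 : 0 < SC) :
    TE a g ≠ ⊤ := by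
  unfold TE
  have hS : (SC : ℝ≥0∞) ≠ 0 := by exact_mod_cast h0.ne'
  exact ENNReal.sum_ne_top.2 fun s _ =>
    ENNReal.mul_ne_top (ENNReal.div_ne_top (ENNReal.natCast_ne_top _) hS) (h s)

/-! ### Suffixes -/

theorem suffix_child {j : Fin 4} {v z : Vx} (h : (j :: v) <:+ z) : v <:+ z :=
  (List.suffix_cons j v).trans h

theorem child_unique {j j' : Fin 4} {v z : Vx} (h : (j :: v) <:+ z) (h' : (j' :: v) <:+ z) :
    j = j' := by
  have h1 : (j :: v) = (j' :: v) := by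
    rcases List.suffix_or_suffix_of_suffix h h' with h2 | h2
    · exact h2.eq_of_length (by simp)
    · exact (h2.eq_of_length (by simp)).symm
  exact (List.cons.inj h1).1

theorem ne_of_suffix_child {j : Fin 4} {v z : Vx} (h : (j :: v) <:+ z) : z ≠ v := by
  rintro rfl
  have := h.length_le
  simp at this

/-- the environment after an entry into the subtree of a child -/
theorem env_update (hl : S_LAB) {v : Vx} {A : Set Vx} {m : ℕ} {c : Fin 4 → ℕ} {B B' : Set Vx}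
    {π : Equiv.Perm (Fin 4)} (hO : Out v A B) (hv : v ∈ B)
    (hπ : ∀ j, Lab m (c j) (π j :: v) B) {i : Fin 4} {s : ℕ} (hO' : Out (π i :: v) B B')
    (hs : Lab m s (π i :: v) B') :
    Out v A B' ∧ v ∈ B' ∧ ∀ j, Lab m (Function.update c i s j) (π j :: v) B' := by
  refine ⟨⟨hO.1.trans hO'.1, fun z hz => ?_⟩, hO'.1 hv, fun j => ?_⟩
  · rw [hO'.2 z (fun h => hz (suffix_child h)), hO.2 z hz]
  · by_cases hj : j = i
    · subst hj
      rw [Function.update_self]
      exact hs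
    · rw [Function.update_of_ne hj]
      refine (hl.2.1 m (c j) (π j :: v) B B' fun z hz => ?_).1 (hπ j)
      refine (hO'.2 z fun h => hj ?_).symm
      exact π.injective (child_unique hz h)

/-- the step, in `[0, ∞]` -/
theorem hh_step (ht : S_TAB) (hl : S_LAB) (h3 : S_VSTEP) {m : ℕ} (hd : DOMat m) {n f : ℕ}
    {i : Fin 4} {p : Vx} (hn : p.length + 1 + (m + 1) = n) {cnt : Vx → ℕ} {A : Set Vx}
    (hp : p ∈ A) (hc : ∀ z, (i :: p) <:+ z → cnt z = 0) (k : ℕ) (c : Fin 4 → ℕ) (e : ℕ)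
    (h5 : ∀ j, c j ≤ 5) :
    HH n f (i :: p) p cnt A m (k + 1) c e ≤ (1 / 5) * HH n f (i :: p) p cnt A m k c (e + 1) +
      (1 / 5) * ∑ j, (KE (c j) (fun y s => HH n f (i :: p) p cnt A m (k + y)
        (Function.update c j s) e) +
        TE (c j) (fun s => XX n f (i :: p) A m (phi (Function.update c j s)))) := by
  set v : Vx := i :: p with hv
  have hpv : p ≠ v := by
    intro h
    have := congrArg List.length h
    simp [hv] at this
  set hs : ℕ → (Fin 4 → ℕ) → ℕ → ℝ≥0∞ := fun k c e => HS n f v p cnt A m k c e with hhs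
  have key : ∀ B, Env v A m c B →
      V n f ⟨fun x => cnt x + dl v (k + 1) x + dl p e x, B⟩ ≤
        (1 / 5) * (CC p 1 + hs k c (e + 1)) +
        ∑ j, (1 / 5) * (KE (c j) (fun y s => hs (k + y) (Function.update c j s) e) +
          TE (c j) (fun s => XX n f v A m (phi (Function.update c j s)))) := by
    rintro B ⟨hO, hvB, π, hπ⟩
    have hpB : p ∈ B := hO.1 hp
    refine (h3 n f _ v ?_).trans ?_
    · show 0 < cnt v + dl v (k + 1) v + dl p e v
      rw [dl_same]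
      omega
    · have hr : rmv v ⟨fun x => cnt x + dl v (k + 1) x + dl p e x, B⟩ =
          ⟨fun x => cnt x + dl v k x + dl p e x, B⟩ := by
        unfold rmv
        congr 1
        funext x
        show cnt x + dl v (k + 1) x + dl p e x - dl v 1 x = _
        rw [dl_add]
        omega
      show (1 / 5) * ((if p = [] then 1 else 0) + V n f (arr n p (rmv v _))) +
        ∑ j : Fin 4, (1 / 5) * V n f (arr n (j :: v) (rmv v _)) ≤ _
      rw [hr]
      gcongr ?_ + ?_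
      · gcongr
        · unfold CC
          split_ifs <;> simp
        · have ha : arr n p ⟨fun x => cnt x + dl v k x + dl p e x, B⟩ =
              ⟨fun x => cnt x + dl v k x + dl p (e + 1) x, B⟩ := by
            unfold arr
            rw [if_neg (by omega), if_pos hpB]
            congr 1
            funext x
            show cnt x + dl v k x + dl p e x + dl p 1 x = _
            rw [dl_add]
            omega
          rw [ha]
          exact le_HS ⟨hO, hvB, π, hπ⟩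
      · rw [← Equiv.sum_comp π]
        refine Finset.sum_le_sum fun j _ => ?_
        gcongr
        have h6 := hd n f (π j) v (by simp [hv]; omega)
          (fun x => cnt x + dl v k x + dl p e x) B hvB (fun z hz => by
            show cnt z + dl v k z + dl p e z = 0
            rw [hc z (suffix_child hz), dl_other k (ne_of_suffix_child hz), dl_other e]
            rintro rfl
            have h7 := (suffix_child hz).length_le
            simp [hv] at h7) (c j) (h5 j) (hπ j)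
        refine h6.trans (add_le_add (KE_mono _ fun y s => ?_) (TE_mono _ fun s => ?_))
        · rw [WW_eq]
          have h8 : CC v y = 0 := by
            unfold CC
            rw [if_neg (by simp [hv])]
          rw [h8, zero_add]
          refine iSup₂_le fun B' hB' => ?_
          obtain ⟨q1, q2, q3⟩ := env_update hl hO hvB hπ hB'.1 hB'.2
          have h9 := le_HS (n := n) (f := f) (p := p) (cnt := cnt) (k := k + y) (e := e)
            (show Env v A m (Function.update c j s) B' from ⟨q1, q2, π, q3⟩)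
          refine le_trans (le_of_eq ?_) h9
          congr 1
          congr 1
          funext x
          show cnt x + dl v k x + dl p e x + dl v y x = cnt x + dl v (k + y) x + dl p e x
          rw [dl_add]
          omega
        · unfold RR
          rw [WW_eq]
          have h8 : CC v 1 = 0 := by
            unfold CC
            rw [if_neg (by simp [hv])]
          rw [h8, zero_add]
          refine iSup₂_le fun B' hB' => ?_
          obtain ⟨q1, q2, q3⟩ := env_update hl hO hvB hπ hB'.1 hB'.2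
          unfold XX
          refine le_iSup₂_of_le B' ⟨q1, q2, hl.2.2.2 m _ π v B' q2 q3⟩ (le_of_eq ?_)
          congr 1
          congr 1
          funext x
          show 0 + dl v 1 x = dl v 1 x
          omega
  rw [HH_eq]
  have k1 : HS n f v p cnt A m (k + 1) c e ≤ _ := iSup₂_le key
  refine (add_le_add_right k1 (CC p e)).trans (le_of_eq ?_)
  have k2 : ∀ j : Fin 4, KE (c j) (fun y s => HH n f v p cnt A m (k + y)
        (Function.update c j s) e) =
      CC p e + KE (c j) (fun y s => hs (k + y) (Function.update c j s) e) := fun j => by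
    rw [← KE_const ht (h5 j)]
    congr 1
  simp only [k2]
  rw [HH_eq n f v p cnt A m k c (e + 1), CC_add, ← Finset.mul_sum]
  have k3 : ∑ j : Fin 4, (CC p e + KE (c j) (fun y s => hs (k + y) (Function.update c j s) e) +
      TE (c j) (fun s => XX n f v A m (phi (Function.update c j s)))) =
      4 * CC p e + ∑ j : Fin 4, (KE (c j) (fun y s => hs (k + y) (Function.update c j s) e) +
      TE (c j) (fun s => XX n f v A m (phi (Function.update c j s)))) := by
    simp only [add_assoc]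
    rw [Finset.sum_add_distrib]
    congr 1
    simp
  rw [k3]
  have k4 : CC p e = (1 / 5) * CC p e + (1 / 5) * (4 * CC p e) := by
    rw [← mul_add]
    have : CC p e + 4 * CC p e = 5 * CC p e := by ring
    rw [this, ← mul_assoc, ENNReal.div_mul_cancel (by norm_num) (by norm_num), one_mul]
  conv_lhs => rw [k4]
  ring

/-- one more frog at `v` -/
theorem hh_more (hl : S_LAB) (h4 : S_VSUB) {m n f : ℕ} {v p : Vx} {cnt : Vx → ℕ} {A : Set Vx}
    (k : ℕ) (c : Fin 4 → ℕ) (e : ℕ) :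
    HH n f v p cnt A m (k + 1) c e ≤ HH n f v p cnt A m k c e + XX n f v A m (phi c) := by
  rw [HH_eq, HH_eq, add_assoc]
  gcongr
  refine iSup₂_le fun B hB => ?_
  obtain ⟨hO, hvB, π, hπ⟩ := id hB
  have h5 : (⟨fun x => cnt x + dl v (k + 1) x + dl p e x, B⟩ : Cf) =
      Cf.join ⟨fun x => cnt x + dl v k x + dl p e x, B⟩ ⟨dl v 1, B⟩ := by
    unfold Cf.join
    simp only [Set.union_self]
    congr 1
    funext x
    rw [dl_add]
    omega
  rw [h5]
  refine (h4 _ _ _ _).trans (add_le_add (le_HS hB) ?_)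
  unfold XX
  exact le_iSup₂_of_le B ⟨hO, hvB, hl.2.2.2 m c π v B hvB hπ⟩ le_rfl

/-- one more frog at the parent -/
theorem hh_up (hl : S_LAB) (h4 : S_VSUB) {m n f : ℕ} {v p : Vx} {cnt : Vx → ℕ} {A : Set Vx}
    (k : ℕ) (c : Fin 4 → ℕ) (e : ℕ) :
    HH n f v p cnt A m k c (e + 1) ≤
      HH n f v p cnt A m k c e + RR n f v p A (m + 1) (phi c) := by
  unfold RR
  rw [HH_eq, HH_eq, WW_eq, CC_add]
  have h6 : HS n f v p cnt A m k c (e + 1) ≤ HS n f v p cnt A m k c e +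
      ⨆ B : Set Vx, ⨆ _ : Out v A B ∧ Lab (m + 1) (phi c) v B,
        V n f ⟨fun x => 0 + dl p 1 x, B⟩ := by
    refine iSup₂_le fun B hB => ?_
    obtain ⟨hO, hvB, π, hπ⟩ := id hB
    have h5 : (⟨fun x => cnt x + dl v k x + dl p (e + 1) x, B⟩ : Cf) =
        Cf.join ⟨fun x => cnt x + dl v k x + dl p e x, B⟩ ⟨fun x => 0 + dl p 1 x, B⟩ := by
      unfold Cf.join
      simp only [Set.union_self]
      congr 1
      funext x
      rw [dl_add]
      omega
    rw [h5]
    refine (h4 _ _ _ _).trans (add_le_add (le_HS hB) ?_)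
    exact le_iSup₂_of_le B ⟨hO, hl.2.2.2 m c π v B hvB hπ⟩ le_rfl
  calc CC p e + CC p 1 + HS n f v p cnt A m k c (e + 1) ≤
      CC p e + CC p 1 + (HS n f v p cnt A m k c e +
      ⨆ B : Set Vx, ⨆ _ : Out v A B ∧ Lab (m + 1) (phi c) v B,
        V n f ⟨fun x => 0 + dl p 1 x, B⟩) := by gcongr
    _ = _ := by ring

/-- no frogs at `v` -/
theorem hh_fin (hl : S_LAB) {m n f : ℕ} {v p : Vx} {cnt : Vx → ℕ} {A : Set Vx}
    (c : Fin 4 → ℕ) (e : ℕ) :
    HH n f v p cnt A m 0 c e ≤ WW n f v p cnt A (m + 1) e (phi c) := by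
  rw [HH_eq, WW_eq]
  gcongr
  refine iSup₂_le fun B hB => ?_
  obtain ⟨hO, hvB, π, hπ⟩ := hB
  refine le_iSup₂_of_le B ⟨hO, hl.2.2.2 m c π v B hvB hπ⟩ (le_of_eq ?_)
  congr 1
  congr 1
  funext x
  rw [dl_zero]
  rfl

/-- the labels of the children may be permuted -/
theorem hh_symm {m n f : ℕ} {v p : Vx} {cnt : Vx → ℕ} {A : Set Vx}
    (k : ℕ) (c : Fin 4 → ℕ) (e : ℕ) (σ : Equiv.Perm (Fin 4)) :
    HH n f v p cnt A m k (c ∘ σ) e = HH n f v p cnt A m k c e := by
  have h : ∀ B, Env v A m (c ∘ σ) B ↔ Env v A m c B := by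
    intro B
    constructor
    · rintro ⟨h1, h2, π, hπ⟩
      refine ⟨h1, h2, σ.symm.trans π, fun j => ?_⟩
      have := hπ (σ.symm j)
      simpa using this
    · rintro ⟨h1, h2, π, hπ⟩
      exact ⟨h1, h2, σ.trans π, fun j => hπ (σ j)⟩
  rw [HH_eq, HH_eq]
  unfold HS
  simp only [h]

end Pool.Agent.U319.FR.SysAux

namespace Pool.Agent.U319.FR

open SysAux

/-- Job SYS. -/
theorem sys (ht : S_TAB) (hl : S_LAB) (h1 : S_VFIN) (_h2 : S_VMONO) (h3 : S_VSTEP)
    (h4 : S_VSUB) : S_SYS := by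
  intro m hd n f i p hn cnt A hp hc
  have h0 : 0 < SC := ht.1
  have fH : ∀ k c e, HH n f (i :: p) p cnt A m k c e ≠ ⊤ := fun k c e => HH_fin h1 _ _ _ _ _ _ _ _ _ _
  have fX : ∀ s, XX n f (i :: p) A m s ≠ ⊤ := fun s => XX_fin h1 _ _ _ _ _ _
  have fW : ∀ e s, WW n f (i :: p) p cnt A (m + 1) e s ≠ ⊤ := fun e s => WW_fin h1 _ _ _ _ _ _ _ _ _
  have fR : ∀ s, RR n f (i :: p) p A (m + 1) s ≠ ⊤ := fun s => WW_fin h1 _ _ _ _ _ _ _ _ _
  refine ⟨?_, ?_, ?_, ?_, ?_⟩
  · intro k c e π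
    rw [hh_symm]
  · intro k c e h5
    have h6 := hh_step ht hl h3 hd hn hp hc k c e h5 (f := f)
    have f1 : ∀ j, KE (c j) (fun y s => HH n f (i :: p) p cnt A m (k + y)
        (Function.update c j s) e) ≠ ⊤ := fun j => KE_ne_top _ (fun y s => fH _ _ _) h0
    have f2 : ∀ j, TE (c j) (fun s => XX n f (i :: p) A m (phi (Function.update c j s))) ≠ ⊤ :=
      fun j => TE_ne_top _ (fun s => fX _) h0
    have h15 : (1 / 5 : ℝ≥0∞) ≠ ⊤ := ENNReal.div_ne_top (by simp) (by simp)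
    have f3 : ∑ j, (KE (c j) (fun y s => HH n f (i :: p) p cnt A m (k + y)
        (Function.update c j s) e) +
        TE (c j) (fun s => XX n f (i :: p) A m (phi (Function.update c j s)))) ≠ ⊤ :=
      ENNReal.sum_ne_top.2 fun j _ => ENNReal.add_ne_top.2 ⟨f1 j, f2 j⟩
    have h7 := ENNReal.toReal_mono (ENNReal.add_ne_top.2
      ⟨ENNReal.mul_ne_top h15 (fH k c (e + 1)), ENNReal.mul_ne_top h15 f3⟩) h6
    refine h7.trans (le_of_eq ?_)
    rw [ENNReal.toReal_add (ENNReal.mul_ne_top h15 (fH k c (e + 1))) (ENNReal.mul_ne_top h15 f3),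
      ENNReal.toReal_mul, ENNReal.toReal_mul,
      ENNReal.toReal_sum (fun j _ => ENNReal.add_ne_top.2 ⟨f1 j, f2 j⟩)]
    have h8 : (1 / 5 : ℝ≥0∞).toReal = 1 / 5 := by
      rw [ENNReal.toReal_div]
      simp
    rw [h8]
    congr 2
    refine Finset.sum_congr rfl fun j _ => ?_
    rw [ENNReal.toReal_add (f1 j) (f2 j), KE_toReal _ (fun y s => fH _ _ _) h0,
      TE_toReal _ (fun s => fX _) h0]
  · intro k c e _
    have h6 := ENNReal.toReal_mono (ENNReal.add_ne_top.2 ⟨fH k c e, fX (phi c)⟩)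
      (hh_more hl h4 k c e)
    rwa [ENNReal.toReal_add (fH k c e) (fX (phi c))] at h6
  · intro k c e _
    have h6 := ENNReal.toReal_mono (ENNReal.add_ne_top.2 ⟨fH k c e, fR (phi c)⟩)
      (hh_up hl h4 k c e)
    rwa [ENNReal.toReal_add (fH k c e) (fR (phi c))] at h6
  · intro c e _
    exact ENNReal.toReal_mono (fW e (phi c)) (hh_fin hl c e)

end Pool.Agent.U319.FR
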