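import Pool.Agent.U319.FR.Stm2
import Pool.Agent.U319.FR.SYS

/-!
# Frog model on the rooted 4-ary tree: the system of inequalities at a vertex, second version
(job SYS)
-/

set_option autoImplicit false

open scoped ENNReal
open Finset Pool.Agent.U319.FR Pool.Agent.U319.FR.SysAux

namespace Pool.Agent.U319.FR2.SysAux2

/-! ### The operator `KE` -/

theorem ke_mono (a : ℕ) {g g' : ℕ → ℕ → ℝ≥0∞} (h : ∀ y s, g y s ≤ g' y s) :
    FR2.KE a g ≤ FR2.KE a g' := by
  unfold FR2.KE
  gcongr with s _ y _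
  exact h y s

theorem ke_const (ht : FR2.S_TAB) {a : ℕ} (ha : a ≤ 5) (C : ℝ≥0∞) (g : ℕ → ℕ → ℝ≥0∞) :
    FR2.KE a (fun y s => C + g y s) = C + FR2.KE a g := by
  obtain ⟨h0, h1, -⟩ := ht
  have h2 : ∑ s ∈ Icc 1 5, ∑ y ∈ range 6, (FR2.K a s y : ℝ≥0∞) / (FR2.SC : ℝ≥0∞) = 1 := by
    have h3 : ∑ s ∈ Icc 1 5, ∑ y ∈ range 6, (FR2.K a s y : ℝ≥0∞) / (FR2.SC : ℝ≥0∞) =
        ((∑ s ∈ Icc 1 5, ∑ y ∈ range 6, FR2.K a s y : ℕ) : ℝ≥0∞) / (FR2.SC : ℝ≥0∞) := by
      push_cast
      simp only [div_eq_mul_inv, Finset.sum_mul]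
    rw [h3, h1 a ha]
    exact ENNReal.div_self (by exact_mod_cast h0.ne') (ENNReal.natCast_ne_top _)
  unfold FR2.KE
  simp only [mul_add, Finset.sum_add_distrib]
  congr 1
  calc ∑ s ∈ Icc 1 5, ∑ y ∈ range 6, (FR2.K a s y : ℝ≥0∞) / (FR2.SC : ℝ≥0∞) * C =
      (∑ s ∈ Icc 1 5, ∑ y ∈ range 6, (FR2.K a s y : ℝ≥0∞) / (FR2.SC : ℝ≥0∞)) * C := by
        simp only [Finset.sum_mul]
    _ = C := by rw [h2, one_mul]

theorem ke_toReal (a : ℕ) {g : ℕ → ℕ → ℝ≥0∞} (h : ∀ y s, g y s ≠ ⊤) (h0 : 0 < FR2.SC) :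
    (FR2.KE a g).toReal = FR2.KV a (fun y s => (g y s).toReal) := by
  unfold FR2.KE FR2.KV
  have hS : (FR2.SC : ℝ≥0∞) ≠ 0 := by exact_mod_cast h0.ne'
  have h1 : ∀ s y, (FR2.K a s y : ℝ≥0∞) / (FR2.SC : ℝ≥0∞) * g y s ≠ ⊤ := fun s y =>
    ENNReal.mul_ne_top (ENNReal.div_ne_top (ENNReal.natCast_ne_top _) hS) (h y s)
  rw [ENNReal.toReal_sum (fun s _ => ENNReal.sum_ne_top.2 fun y _ => h1 s y)]
  refine Finset.sum_congr rfl fun s _ => ?_
  rw [ENNReal.toReal_sum (fun y _ => h1 s y)]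
  refine Finset.sum_congr rfl fun y _ => ?_
  rw [ENNReal.toReal_mul, ENNReal.toReal_div]
  simp

theorem ke_ne_top (a : ℕ) {g : ℕ → ℕ → ℝ≥0∞} (h : ∀ y s, g y s ≠ ⊤) (h0 : 0 < FR2.SC) :
    FR2.KE a g ≠ ⊤ := by
  unfold FR2.KE
  have hS : (FR2.SC : ℝ≥0∞) ≠ 0 := by exact_mod_cast h0.ne'
  exact ENNReal.sum_ne_top.2 fun s _ => ENNReal.sum_ne_top.2 fun y _ =>
    ENNReal.mul_ne_top (ENNReal.div_ne_top (ENNReal.natCast_ne_top _) hS) (h y s)

/-! ### Canonical sets -/

/-- the words of the canonical set -/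
def CanU (s : ℕ) (u : Vx) : Prop :=
  1 ≤ s ∧ (u = [] ∨ ∃ (j : Fin 4) (t : ℕ), (j : ℕ) + 1 < s ∧ u = List.replicate t (0 : Fin 4) ++ [j])

theorem mem_can_app (s : ℕ) (u w : Vx) : u ++ w ∈ Can s w ↔ CanU s u := by
  unfold Can CanU
  rw [Set.mem_ofPred_eq]
  have h1 : u ++ w = w ↔ u = [] := by
    constructor
    · intro h
      have := congrArg List.length h
      simp only [List.length_append] at this
      exact List.eq_nil_of_length_eq_zero (by omega)
    · rintro rfl
      rfl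
  have h2 : ∀ (j : Fin 4) (t : ℕ), u ++ w = List.replicate t (0 : Fin 4) ++ j :: w ↔
      u = List.replicate t (0 : Fin 4) ++ [j] := by
    intro j t
    have e : List.replicate t (0 : Fin 4) ++ j :: w = (List.replicate t (0 : Fin 4) ++ [j]) ++ w := by
      simp
    rw [e]
    exact ⟨fun h => List.append_cancel_right h, fun h => by rw [h]⟩
  simp only [h1, h2]

theorem can_suffix {s : ℕ} {w z : Vx} (h : z ∈ Can s w) : w <:+ z := by
  obtain ⟨-, rfl | ⟨j, t, -, rfl⟩⟩ := h
  · exact List.suffix_refl _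
  · exact ⟨List.replicate t (0 : Fin 4) ++ [j], by simp⟩

theorem can_zero (w z : Vx) : z ∉ Can 0 w := by
  rintro ⟨h, -⟩
  omega

theorem can_mono {s s' : ℕ} (h : s ≤ s') (w : Vx) : Can s w ⊆ Can s' w := by
  rintro z ⟨h1, h2⟩
  refine ⟨h1.trans h, h2.imp id ?_⟩
  rintro ⟨j, t, h3, h4⟩
  exact ⟨j, t, by omega, h4⟩

theorem mem_rep {A : Set Vx} {w : Vx} {s : ℕ} {z : Vx} :
    z ∈ Rep A w s ↔ (z ∈ A ∧ ¬ (w <:+ z)) ∨ z ∈ Can s w := Iff.rfl

theorem mem_rpc {A : Set Vx} {v : Vx} {c : Fin 4 → ℕ} {z : Vx} :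
    z ∈ Rpc A v c ↔ (z ∈ A ∧ ¬ (v <:+ z)) ∨ z = v ∨ ∃ i, z ∈ Can (c i) (i :: v) := Iff.rfl

theorem rep_rpc_child (A : Set Vx) (v : Vx) (c : Fin 4 → ℕ) (j : Fin 4) (s : ℕ) :
    Rep (Rpc A v c) (j :: v) s = Rpc A v (Function.update c j s) := by
  ext z
  rw [mem_rep, mem_rpc, mem_rpc]
  constructor
  · rintro (⟨h1 | h1 | ⟨i, h1⟩, h2⟩ | h1)
    · exact Or.inl h1
    · exact Or.inr (Or.inl h1)
    · refine Or.inr (Or.inr ⟨i, ?_⟩)
      rw [Function.update_of_ne]
      · exact h1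
      · rintro rfl
        exact h2 (can_suffix h1)
    · refine Or.inr (Or.inr ⟨j, ?_⟩)
      rw [Function.update_self]
      exact h1
  · rintro (h1 | h1 | ⟨i, h1⟩)
    · exact Or.inl ⟨Or.inl h1, fun h => h1.2 (suffix_child h)⟩
    · exact Or.inl ⟨Or.inr (Or.inl h1), fun h => ne_of_suffix_child h h1⟩
    · by_cases hij : i = j
      · subst hij
        rw [Function.update_self] at h1
        exact Or.inr h1
      · rw [Function.update_of_ne hij] at h1
        exact Or.inl ⟨Or.inr (Or.inr ⟨i, h1⟩), fun h => hij (child_unique (can_suffix h1) h)⟩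

theorem rep_rpc (A : Set Vx) (v : Vx) (c : Fin 4 → ℕ) (s : ℕ) :
    Rep (Rpc A v c) v s = Rep A v s := by
  ext z
  rw [mem_rep, mem_rep, mem_rpc]
  constructor
  · rintro (⟨h1 | h1 | ⟨i, h1⟩, h2⟩ | h1)
    · exact Or.inl h1
    · exact absurd (h1 ▸ List.suffix_refl _) h2
    · exact absurd (suffix_child (can_suffix h1)) h2
    · exact Or.inr h1
  · rintro (h1 | h1)
    · exact Or.inl ⟨Or.inl h1, h1.2⟩
    · exact Or.inr h1

theorem rpc_c0 (A : Set Vx) (v : Vx) (s : ℕ) (hs : 1 ≤ s) : Rpc A v (c0 s) = Rep A v s := by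
  ext z
  rw [mem_rep, mem_rpc]
  refine or_congr Iff.rfl ?_
  unfold Can
  rw [Set.mem_ofPred_eq]
  constructor
  · rintro (h1 | ⟨i, h1, h2⟩)
    · exact ⟨hs, Or.inl h1⟩
    · refine ⟨hs, Or.inr ?_⟩
      unfold c0 at h1 h2
      split_ifs at h1 h2 with h3
      · rcases h2 with rfl | ⟨j, t, h4, rfl⟩
        · exact ⟨i, 0, h3, rfl⟩
        · have : j = 0 := by
            apply Fin.ext
            have := j.isLt
            simp only [Fin.val_zero]
            omega
          subst this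
          refine ⟨i, t + 1, h3, ?_⟩
          rw [List.replicate_succ']
          simp
      · omega
  · rintro ⟨-, h1 | ⟨i, t, h1, rfl⟩⟩
    · exact Or.inl h1
    · refine Or.inr ⟨i, ?_⟩
      have e : c0 s i = 2 := by
        unfold c0
        rw [if_pos h1]
      rw [e]
      refine ⟨by norm_num, ?_⟩
      rcases t with _ | t
      · exact Or.inl rfl
      · refine Or.inr ⟨0, t, by norm_num, ?_⟩
        rw [List.replicate_succ']
        simp

/-! ### Permutations of the children -/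

theorem flip_id {w : Vx} {π : Equiv.Perm (Fin 4)} : ∀ {z : Vx}, (∀ j, ¬ (j :: w) <:+ z) →
    flip w π z = z
  | [], _ => rfl
  | j :: z, h => by
    have hz : z ≠ w := by
      rintro rfl
      exact h j (List.suffix_refl _)
    unfold flip
    rw [if_neg hz, flip_id fun i hi => h i (hi.trans (List.suffix_cons j z))]

theorem flip_app {w : Vx} {π : Equiv.Perm (Fin 4)} (j : Fin 4) : ∀ u : Vx,
    flip w π (u ++ j :: w) = u ++ π j :: w
  | [] => by
    show flip w π (j :: w) = π j :: w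
    unfold flip
    rw [if_pos rfl]
  | a :: u => by
    have hz : u ++ j :: w ≠ w := by
      intro h
      have := congrArg List.length h
      simp only [List.length_append, List.length_cons] at this
      omega
    show flip w π (a :: (u ++ j :: w)) = a :: (u ++ π j :: w)
    unfold flip
    rw [if_neg hz, flip_app j u]

theorem mem_can_child {s : ℕ} {i j : Fin 4} {u v : Vx} :
    u ++ j :: v ∈ Can s (i :: v) ↔ i = j ∧ CanU s u := by
  constructor
  · intro h
    have h1 := child_unique (can_suffix h) (⟨u, rfl⟩ : (j :: v) <:+ u ++ j :: v)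
    subst h1
    exact ⟨rfl, (mem_can_app s u (i :: v)).1 h⟩
  · rintro ⟨rfl, h⟩
    exact (mem_can_app s u (i :: v)).2 h

theorem flip_rpc (A : Set Vx) (v : Vx) (c : Fin 4 → ℕ) (π : Equiv.Perm (Fin 4)) :
    {z | flip v π z ∈ Rpc A v c} = Rpc A v (c ∘ π) := by
  ext z
  rw [Set.mem_ofPred_eq]
  by_cases hz : ∃ j, (j :: v) <:+ z
  · obtain ⟨j, u, rfl⟩ := hz
    rw [flip_app, mem_rpc, mem_rpc]
    have s1 : ∀ k : Fin 4, v <:+ u ++ k :: v := fun k => ⟨u ++ [k], by simp⟩
    have s2 : ∀ k : Fin 4, u ++ k :: v ≠ v := by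
      intro k h
      have := congrArg List.length h
      simp only [List.length_append, List.length_cons] at this
      omega
    simp only [s1, s2, not_true_eq_false, and_false, false_or, mem_can_child, Function.comp]
    constructor
    · rintro ⟨i, rfl, h⟩
      exact ⟨j, rfl, h⟩
    · rintro ⟨i, rfl, h⟩
      exact ⟨π i, rfl, h⟩
  · push Not at hz
    rw [flip_id hz, mem_rpc, mem_rpc]
    refine or_congr Iff.rfl (or_congr Iff.rfl ?_)
    constructor
    · rintro ⟨i, h⟩
      exact absurd (can_suffix h) (hz i)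
    · rintro ⟨i, h⟩
      exact absurd (can_suffix h) (hz i)

/-! ### The values -/

section values

variable {n : ℕ} {v p : Vx} {cnt : Vx → ℕ} {A : Set Vx}

theorem hh_eq (n : ℕ) (v p : Vx) (cnt : Vx → ℕ) (A : Set Vx) (k : ℕ) (c : Fin 4 → ℕ) (e : ℕ) :
    FR2.HH n v p cnt A k c e = CC p e + VI n ⟨fun x => cnt x + dl v k x + dl p e x, Rpc A v c⟩ := by
  unfold FR2.HH CC
  congr 1

theorem ww_eq (n : ℕ) (v p : Vx) (cnt : Vx → ℕ) (A : Set Vx) (e s : ℕ) :
    FR2.WW n v p cnt A e s = CC p e + VI n ⟨fun x => cnt x + dl p e x, Rep A v s⟩ := by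
  unfold FR2.WW CC
  congr 1

theorem supp_dl (v : Vx) (k : ℕ) : (Function.support (dl v k)).Finite := by
  refine (Set.finite_singleton v).subset fun x hx => ?_
  by_contra h
  exact hx (dl_other k h)

theorem supp_add {f g : Vx → ℕ} (hf : (Function.support f).Finite)
    (hg : (Function.support g).Finite) : (Function.support fun x => f x + g x).Finite := by
  refine (hf.union hg).subset fun x hx => ?_
  by_contra h
  rw [Set.mem_union, not_or] at h
  have h1 : f x = 0 := by simpa using h.1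
  have h2 : g x = 0 := by simpa using h.2
  exact hx (by simp [h1, h2])

theorem supp3 (hc : (Function.support cnt).Finite) (v p : Vx) (k e : ℕ) :
    (Function.support fun x => cnt x + dl v k x + dl p e x).Finite :=
  supp_add (supp_add hc (supp_dl v k)) (supp_dl p e)

theorem vi_mono (h2 : S_VMONO) {n : ℕ} {η η' : Cf} (h : η.Le η') : VI n η ≤ VI n η' :=
  iSup_mono fun f => h2 n f η η' h

theorem le_vi (n f : ℕ) (η : Cf) : V n f η ≤ VI n η := le_iSup (fun f => V n f η) f

theorem cc_ne_top (p : Vx) (e : ℕ) : CC p e ≠ ⊤ :=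
  ne_top_of_le_ne_top (by simp) (CC_le p e)

theorem hh_ne_top (hv : S_VIF) (hc : (Function.support cnt).Finite) (k : ℕ) (c : Fin 4 → ℕ)
    (e : ℕ) : FR2.HH n v p cnt A k c e ≠ ⊤ := by
  rw [hh_eq]
  exact ENNReal.add_ne_top.2 ⟨cc_ne_top p e, hv _ _ _ (supp3 hc v p k e)⟩

theorem ww_ne_top (hv : S_VIF) (hc : (Function.support cnt).Finite) (e s : ℕ) :
    FR2.WW n v p cnt A e s ≠ ⊤ := by
  rw [ww_eq]
  exact ENNReal.add_ne_top.2 ⟨cc_ne_top p e, hv _ _ _ (supp_add hc (supp_dl p e))⟩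

/-- the value of a configuration is at most the mean value after a step -/
theorem vi_step (h3 : S_VSTEP) {n : ℕ} {η : Cf} {u : Vx} (hu : 0 < η.cnt u) :
    VI n η ≤ mv n (VI n) u η := by
  refine iSup_le fun f => (h3 n f η u hu).trans ?_
  cases u with
  | nil =>
    show ∑ j : Fin 4, (1 / 4) * V n f _ ≤ ∑ j : Fin 4, (1 / 4) * VI n _
    gcongr
    exact le_vi _ _ _
  | cons i p =>
    show (1 / 5) * ((if p = [] then 1 else 0) + V n f _) + ∑ j : Fin 4, (1 / 5) * V n f _ ≤
      (1 / 5) * ((if p = [] then 1 else 0) + VI n _) + ∑ j : Fin 4, (1 / 5) * VI n _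
    gcongr
    · exact le_vi _ _ _
    · exact le_vi _ _ _

theorem lab_rpc (hcl : S_CLAB) (m : ℕ) (v : Vx) (A : Set Vx) (c : Fin 4 → ℕ)
    (h5 : ∀ j, c j ≤ 5) (j : Fin 4) : Lab m (c j) (j :: v) (Rpc A v c) :=
  hcl m (c j) (j :: v) _ (h5 j) fun _ hz => Or.inr (Or.inr ⟨j, hz⟩)

theorem zero_below {i : Fin 4} {p : Vx} {cnt : Vx → ℕ} (hc : ∀ z, (i :: p) <:+ z → cnt z = 0)
    (k e : ℕ) (j : Fin 4) (z : Vx) (hz : (j :: i :: p) <:+ z) :
    cnt z + dl (i :: p) k z + dl p e z = 0 := by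
  rw [hc z (suffix_child hz), dl_other k (ne_of_suffix_child hz), dl_other e]
  rintro rfl
  have h7 := (suffix_child hz).length_le
  simp at h7

/-- the step, in `[0, ∞]` -/
theorem hh_step (ht : FR2.S_TAB) (h3 : S_VSTEP) (hcl : S_CLAB) {m : ℕ} (hd : FR2.DOMat m)
    {i : Fin 4} {p : Vx} (hn : p.length + 1 + (m + 1) = n)
    (hs : (Function.support cnt).Finite)
    (hp : p ∈ A) (hc : ∀ z, (i :: p) <:+ z → cnt z = 0) (k : ℕ) (c : Fin 4 → ℕ) (e : ℕ)
    (h5 : ∀ j, c j ≤ 5) :
    FR2.HH n (i :: p) p cnt A (k + 1) c e ≤ (1 / 5) * FR2.HH n (i :: p) p cnt A k c (e + 1) +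
      (1 / 5) * ∑ j, FR2.KE (c j) (fun y s => FR2.HH n (i :: p) p cnt A (k + y)
        (Function.update c j s) e) := by
  set v : Vx := i :: p with hv
  have hpv : ¬ v <:+ p := by
    intro h
    have := h.length_le
    simp [hv] at this
  have hpB : p ∈ Rpc A v c := Or.inl ⟨hp, hpv⟩
  have hvB : v ∈ Rpc A v c := Or.inr (Or.inl rfl)
  have key : VI n ⟨fun x => cnt x + dl v (k + 1) x + dl p e x, Rpc A v c⟩ ≤
        (1 / 5) * (CC p 1 + VI n ⟨fun x => cnt x + dl v k x + dl p (e + 1) x, Rpc A v c⟩) +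
        ∑ j, (1 / 5) * FR2.KE (c j) (fun y s =>
          VI n ⟨fun x => cnt x + dl v (k + y) x + dl p e x, Rpc A v (Function.update c j s)⟩) := by
    refine (vi_step (n := n) h3 (u := v) ?_).trans ?_
    · show 0 < cnt v + dl v (k + 1) v + dl p e v
      rw [dl_same]
      omega
    · have hr : rmv v ⟨fun x => cnt x + dl v (k + 1) x + dl p e x, Rpc A v c⟩ =
          ⟨fun x => cnt x + dl v k x + dl p e x, Rpc A v c⟩ := by
        unfold rmv
        congr 1
        funext x
        show cnt x + dl v (k + 1) x + dl p e x - dl v 1 x = _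
        rw [dl_add]
        omega
      show (1 / 5) * ((if p = [] then 1 else 0) + VI n (arr n p (rmv v _))) +
        ∑ j : Fin 4, (1 / 5) * VI n (arr n (j :: v) (rmv v _)) ≤ _
      rw [hr]
      gcongr ?_ + ?_
      · gcongr
        · unfold CC
          split_ifs <;> simp
        · have ha : arr n p ⟨fun x => cnt x + dl v k x + dl p e x, Rpc A v c⟩ =
              ⟨fun x => cnt x + dl v k x + dl p (e + 1) x, Rpc A v c⟩ := by
            unfold arr
            rw [if_neg (by omega), if_pos hpB]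
            congr 1
            funext x
            show cnt x + dl v k x + dl p e x + dl p 1 x = _
            rw [dl_add]
            omega
          rw [ha]
      · refine Finset.sum_le_sum fun j _ => ?_
        gcongr
        have h6 := hd n j v (by simp [hv]; omega)
          (fun x => cnt x + dl v k x + dl p e x) (Rpc A v c) (supp3 hs v p k e) hvB
          (fun z hz => zero_below hc k e j z hz) (c j) (h5 j) (lab_rpc hcl m v A c h5 j)
        refine h6.trans (ke_mono _ fun y s => ?_)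
        rw [ww_eq, rep_rpc_child]
        have h8 : CC v y = 0 := by
          unfold CC
          rw [if_neg (by simp [hv])]
        rw [h8, zero_add]
        refine le_of_eq ?_
        congr 2
        funext x
        show cnt x + dl v k x + dl p e x + dl v y x = cnt x + dl v (k + y) x + dl p e x
        rw [dl_add]
        omega
  rw [hh_eq]
  refine (add_le_add_right key (CC p e)).trans (le_of_eq ?_)
  have k2 : ∀ j : Fin 4, FR2.KE (c j) (fun y s => FR2.HH n v p cnt A (k + y)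
        (Function.update c j s) e) =
      CC p e + FR2.KE (c j) (fun y s =>
        VI n ⟨fun x => cnt x + dl v (k + y) x + dl p e x, Rpc A v (Function.update c j s)⟩) :=
    fun j => by
      rw [← ke_const ht (h5 j)]
      congr 1
  simp only [k2]
  rw [hh_eq n v p cnt A k c (e + 1), CC_add, ← Finset.mul_sum, Finset.sum_add_distrib]
  have k3 : ∑ _j : Fin 4, CC p e = 4 * CC p e := by simp
  rw [k3]
  have k4 : CC p e = (1 / 5) * CC p e + (1 / 5) * (4 * CC p e) := by
    rw [← mul_add]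
    have : CC p e + 4 * CC p e = 5 * CC p e := by ring
    rw [this, ← mul_assoc, ENNReal.div_mul_cancel (by norm_num) (by norm_num), one_mul]
  conv_lhs => rw [k4]
  ring

end values

end Pool.Agent.U319.FR2.SysAux2

namespace Pool.Agent.U319.FR2

open SysAux2

/-- Job SYS. -/
theorem sys2 (ht : FR2.S_TAB) (hl : S_LAB) (hv : S_VIF) (h2 : S_VMONO) (h3 : S_VSTEP)
    (hcon : S_CONC) (hinv : S_INV) (hcan : S_CAN) (hcl : S_CLAB) : FR2.S_SYS := by
  intro m hd n i p hn cnt A hs hp hc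
  have h0 : 0 < FR2.SC := ht.1
  have fH : ∀ k c e, FR2.HH n (i :: p) p cnt A k c e ≠ ⊤ := fun k c e => hh_ne_top hv hs k c e
  have fW : ∀ e s, FR2.WW n (i :: p) p cnt A e s ≠ ⊤ := fun e s => ww_ne_top hv hs e s
  have two : ∀ {a b d : ℝ≥0∞}, a ≠ ⊤ → b ≠ ⊤ → d ≠ ⊤ → a + b ≤ 2 * d →
      a.toReal + b.toReal ≤ 2 * d.toReal := by
    intro a b d ha hb hd' h
    have h6 := ENNReal.toReal_mono (ENNReal.mul_ne_top (by simp) hd') h
    rw [ENNReal.toReal_add ha hb, ENNReal.toReal_mul] at h6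
    simpa using h6
  refine ⟨?_, ?_, ?_, ?_, ?_, ?_, ?_, ?_⟩
  · intro k c e π _
    have : FR2.HH n (i :: p) p cnt A k (c ∘ π) e = FR2.HH n (i :: p) p cnt A k c e := by
      rw [hh_eq, hh_eq, ← flip_rpc]
      congr 1
      unfold VI
      congr 1
      funext f
      exact hinv (i :: p) π n f _ _ fun j z hz => zero_below hc k e j z hz
    exact congrArg ENNReal.toReal this
  · intro k c e h5
    have h6 := hh_step ht h3 hcl hd hn hs hp hc k c e h5
    have f1 : ∀ j, FR2.KE (c j) (fun y s => FR2.HH n (i :: p) p cnt A (k + y)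
        (Function.update c j s) e) ≠ ⊤ := fun j => ke_ne_top _ (fun y s => fH _ _ _) h0
    have h15 : (1 / 5 : ℝ≥0∞) ≠ ⊤ := ENNReal.div_ne_top (by simp) (by simp)
    have f3 : ∑ j, FR2.KE (c j) (fun y s => FR2.HH n (i :: p) p cnt A (k + y)
        (Function.update c j s) e) ≠ ⊤ := ENNReal.sum_ne_top.2 fun j _ => f1 j
    have h7 := ENNReal.toReal_mono (ENNReal.add_ne_top.2
      ⟨ENNReal.mul_ne_top h15 (fH k c (e + 1)), ENNReal.mul_ne_top h15 f3⟩) h6
    refine h7.trans (le_of_eq ?_)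
    rw [ENNReal.toReal_add (ENNReal.mul_ne_top h15 (fH k c (e + 1))) (ENNReal.mul_ne_top h15 f3),
      ENNReal.toReal_mul, ENNReal.toReal_mul, ENNReal.toReal_sum (fun j _ => f1 j)]
    have h8 : (1 / 5 : ℝ≥0∞).toReal = 1 / 5 := by
      rw [ENNReal.toReal_div]
      simp
    rw [h8]
    congr 2
    refine Finset.sum_congr rfl fun j _ => ?_
    rw [ke_toReal _ (fun y s => fH _ _ _) h0]
  · intro k c e _
    refine ENNReal.toReal_mono (fH (k + 1) c e) ?_
    rw [hh_eq, hh_eq]
    gcongr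
    refine vi_mono h2 ⟨fun x => ?_, subset_rfl⟩
    show cnt x + dl (i :: p) k x + dl p e x ≤ cnt x + dl (i :: p) (k + 1) x + dl p e x
    rw [dl_add]
    omega
  · intro k c e _
    refine two (fH _ _ _) (fH _ _ _) (fH _ _ _) ?_
    have h6 := hcon n (fun x => cnt x + dl (i :: p) k x + dl p e x) (Rpc A (i :: p) c) (i :: p)
      (supp3 hs _ _ _ _)
    have e1 : ∀ l : ℕ, (fun x => cnt x + dl (i :: p) k x + dl p e x + dl (i :: p) l x) =
        fun x => cnt x + dl (i :: p) (k + l) x + dl p e x := by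
      intro l
      funext x
      rw [dl_add]
      omega
    simp only [e1] at h6
    rw [hh_eq, hh_eq, hh_eq]
    calc _ = 2 * CC p e + (VI n ⟨fun x => cnt x + dl (i :: p) (k + 2) x + dl p e x,
          Rpc A (i :: p) c⟩ + VI n ⟨fun x => cnt x + dl (i :: p) k x + dl p e x,
          Rpc A (i :: p) c⟩) := by ring
      _ ≤ 2 * CC p e + 2 * VI n ⟨fun x => cnt x + dl (i :: p) (k + 1) x + dl p e x,
          Rpc A (i :: p) c⟩ := by gcongr
      _ = _ := by ring
  · intro k c e _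
    refine two (fH _ _ _) (fH _ _ _) (fH _ _ _) ?_
    have h6 := hcon n (fun x => cnt x + dl (i :: p) k x + dl p e x) (Rpc A (i :: p) c) p
      (supp3 hs _ _ _ _)
    have e1 : ∀ l : ℕ, (fun x => cnt x + dl (i :: p) k x + dl p e x + dl p l x) =
        fun x => cnt x + dl (i :: p) k x + dl p (e + l) x := by
      intro l
      funext x
      rw [dl_add]
      omega
    simp only [e1] at h6
    rw [hh_eq, hh_eq, hh_eq]
    have c1 : CC p (e + 2) = CC p e + CC p 1 + CC p 1 := by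
      rw [show e + 2 = e + 1 + 1 from rfl, CC_add, CC_add]
    rw [c1, CC_add]
    calc _ = 2 * (CC p e + CC p 1) + (VI n ⟨fun x => cnt x + dl (i :: p) k x + dl p (e + 2) x,
          Rpc A (i :: p) c⟩ + VI n ⟨fun x => cnt x + dl (i :: p) k x + dl p e x,
          Rpc A (i :: p) c⟩) := by ring
      _ ≤ 2 * (CC p e + CC p 1) + 2 * VI n ⟨fun x => cnt x + dl (i :: p) k x + dl p (e + 1) x,
          Rpc A (i :: p) c⟩ := by gcongr
      _ = _ := by ring
  · intro c e h5
    refine ENNReal.toReal_mono (fW e (phi c)) ?_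
    rw [hh_eq, ww_eq]
    gcongr
    have hphi : phi c ≤ 5 := by
      unfold phi
      have := Finset.card_le_univ (Finset.univ.filter fun j : Fin 4 => 2 ≤ c j)
      simp only [Fintype.card_fin] at this
      omega
    have hlab : Lab (m + 1) (phi c) (i :: p) (Rpc A (i :: p) c) :=
      hl.2.2.2 m c 1 (i :: p) _ (Or.inr (Or.inl rfl)) fun j => lab_rpc hcl m _ A c h5 j
    refine iSup_le fun f => ?_
    have h6 := hcan (m + 1) n (i :: p) (by simp; omega) (phi c) hphi
      (fun x => cnt x + dl (i :: p) 0 x + dl p e x) (Rpc A (i :: p) c)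
      (fun j z hz => zero_below hc 0 e j z hz) hlab f
    refine h6.trans ?_
    rw [rep_rpc]
    refine (le_vi n f _).trans (le_of_eq ?_)
    congr 2
    funext x
    rw [dl_zero]
    rfl
  · intro e s h1 _
    refine ENNReal.toReal_mono (fH 0 (c0 s) e) ?_
    rw [hh_eq, ww_eq, rpc_c0 A _ s h1]
    refine le_of_eq ?_
    congr 3
    funext x
    rw [dl_zero]
    rfl
  · intro e s _ h5
    refine ENNReal.toReal_mono (fW e s) ?_
    rw [ww_eq, ww_eq]
    have hz : CC p 0 = 0 := by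
      unfold CC
      split_ifs <;> simp
    rw [hz, zero_add]
    refine le_trans (vi_mono h2 ⟨fun x => ?_, ?_⟩) le_add_self
    · show cnt x + dl p 0 x ≤ cnt x + dl p e x
      rw [dl_zero]
      omega
    · rintro z (h | h)
      · exact Or.inl h
      · exact Or.inr (can_mono h5 _ h)

end Pool.Agent.U319.FR2
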