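import Mathlib.Data.Nat.Basic

set_option autoImplicit false

namespace Pool.Agent.U319.FR

/-- Scale (placeholder values, to be replaced by the final table: use only `S_TAB`). -/
def SC : ℕ := 100000000

/-- Table of weights `K a s y` (placeholder). -/
def K (_a _s _y : ℕ) : ℕ := 0

/-- Table of remainders (placeholder). -/
def T (_a _s : ℕ) : ℕ := 0

end Pool.Agent.U319.FR
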