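import Pool.Agent.U319.FR.Defs
import Pool.Agent.U319.FR.Tab

/-!
# Frog model on the rooted 4-ary tree: statements of the parts of the proof of transience

`Tab` contains the table: `K a s y` and `T a s` (natural numbers, scale `SC`). Do not unfold them:
use only `S_TAB`.
-/

set_option autoImplicit false

open scoped ENNReal
open Finset MeasureTheory ProbabilityTheory

namespace Pool.Agent.U319.FR

/-! ### Job VB: basic properties of the value function -/

def S_VFIN : Prop := ∀ (n f : ℕ) (η : Cf), V n f η ≤ f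
def S_VUP : Prop := ∀ (n f : ℕ) (η : Cf), V n f η ≤ V n (f + 1) η
def S_VMONO : Prop := ∀ (n f : ℕ) (η η' : Cf), η.Le η' → V n f η ≤ V n f η'
/-- No order of the moves is better than to move the frog at `u` first (abelian property). -/
def S_VSTEP : Prop := ∀ (n f : ℕ) (η : Cf) (u : Vx), 0 < η.cnt u → V n f η ≤ mv n (V n f) u η
def S_VSUB : Prop := ∀ (n f : ℕ) (η η' : Cf), V n f (η.join η') ≤ V n f η + V n f η'

/-! ### Tables -/

/-- Average over the outcomes `y` (frogs sent up), `s` (new label) of an entry into a subtree with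
label `a`. -/
noncomputable def KV (a : ℕ) (g : ℕ → ℕ → ℝ) : ℝ :=
  ∑ s ∈ Icc 1 5, ∑ y ∈ range 7, (K a s y : ℝ) / SC * g y s

/-- The remainder term. -/
noncomputable def TV (a : ℕ) (g : ℕ → ℝ) : ℝ := ∑ s ∈ Icc 1 5, (T a s : ℝ) / SC * g s

/-- `KV` with values in `[0, ∞]`. -/
noncomputable def KE (a : ℕ) (g : ℕ → ℕ → ℝ≥0∞) : ℝ≥0∞ :=
  ∑ s ∈ Icc 1 5, ∑ y ∈ range 7, (K a s y : ℝ≥0∞) / (SC : ℝ≥0∞) * g y s

/-- `TV` with values in `[0, ∞]`. -/
noncomputable def TE (a : ℕ) (g : ℕ → ℝ≥0∞) : ℝ≥0∞ :=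
  ∑ s ∈ Icc 1 5, (T a s : ℝ≥0∞) / (SC : ℝ≥0∞) * g s

/-- Mean number of frogs sent up. -/
noncomputable def Mn (a : ℕ) : ℝ := KV a (fun y _ => (y : ℝ)) + TV a (fun _ => 1)

/-- Facts on the tables (job TAB, by computation). -/
def S_TAB : Prop := 0 < SC ∧
  (∀ a ≤ 5, ∑ s ∈ Icc 1 5, ∑ y ∈ range 7, K a s y = SC) ∧
  (∀ a s y, s < a → K a s y = 0) ∧ (∀ a s, s < a → T a s = 0) ∧
  Mn 0 ≤ 97 / 100 ∧ (∀ a, 1 ≤ a → a ≤ 5 → Mn a ≤ 55 / 100)

/-! ### Job RUN: the certificate -/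

/-- Number of frogs at a vertex with label `a` after the arrival of a frog. -/
def k0 (a : ℕ) : ℕ := if a = 0 then 2 else 1

/-- Labels of the children of a vertex with label `a` (`a - 1` children with label two). -/
def c0 (a : ℕ) (i : Fin 4) : ℕ := if (i : ℕ) + 1 < a then 2 else 0

/-- Value functions at a vertex: `H k c e` with `k` frogs at the vertex, labels `c` of the
children, `e` frogs sent up; `W e s` at the end, `X s`, `R s` value of one more frog at the vertex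
and at its parent. -/
structure Sys (H : ℕ → (Fin 4 → ℕ) → ℕ → ℝ) (W : ℕ → ℕ → ℝ) (X R : ℕ → ℝ) : Prop where
  symm : ∀ k c e (π : Equiv.Perm (Fin 4)), H k (c ∘ π) e = H k c e
  step : ∀ k c e, (∀ i, c i ≤ 5) → H (k + 1) c e ≤ (1 / 5) * H k c (e + 1) +
    (1 / 5) * ∑ i, (KV (c i) (fun y s => H (k + y) (Function.update c i s) e) +
      TV (c i) (fun s => X (phi (Function.update c i s))))
  more : ∀ k c e, (∀ i, c i ≤ 5) → H (k + 1) c e ≤ H k c e + X (phi c)
  up : ∀ k c e, (∀ i, c i ≤ 5) → H k c (e + 1) ≤ H k c e + R (phi c)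
  fin : ∀ c e, (∀ i, c i ≤ 5) → H 0 c e ≤ W e (phi c)

def S_RUN : Prop := ∀ (H : ℕ → (Fin 4 → ℕ) → ℕ → ℝ) (W : ℕ → ℕ → ℝ) (X R : ℕ → ℝ) (D : ℝ),
  Sys H W X R → 0 ≤ D → (∀ s, 0 ≤ R s) → (∀ s, 0 ≤ X s) →
  (∀ s, 1 ≤ s → s ≤ 5 → X s ≤ Mn s * R s + D) →
  (∀ e s, 1 ≤ s → s ≤ 5 → W 0 5 ≤ W e s) →
  ∀ a ≤ 5, H (k0 a) (c0 a) 0 ≤ KV a W + TV a R + (9 / 10) * D

/-! ### Job DOM: domination, by induction on the number `m` of generations below `v` -/

open Classical in
/-- Value of `e` frogs sent up to the parent `p` (with the `cnt` frogs elsewhere), the subtree of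
`v` having label `s`. Frogs arriving at the root count one. -/
noncomputable def WW (n f : ℕ) (v p : Vx) (cnt : Vx → ℕ) (A : Set Vx) (m e s : ℕ) : ℝ≥0∞ :=
  (if p = [] then (e : ℝ≥0∞) else 0) +
    ⨆ B : Set Vx, ⨆ _ : Out v A B ∧ Lab m s v B, V n f ⟨fun x => cnt x + dl p e x, B⟩

/-- Value of one frog at the parent `p`. -/
noncomputable def RR (n f : ℕ) (v p : Vx) (A : Set Vx) (m s : ℕ) : ℝ≥0∞ :=
  WW n f v p (fun _ => 0) A m 1 s

/-- A frog arrives at `v` (child of the visited vertex `p`); there are no frogs in the subtree of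
`v`, which has label `a`. -/
def S_DOM : Prop := ∀ (m n f : ℕ) (i : Fin 4) (p : Vx), p.length + 1 + m = n →
  ∀ (cnt : Vx → ℕ) (A : Set Vx), p ∈ A → (∀ z, (i :: p) <:+ z → cnt z = 0) →
  ∀ a ≤ 5, Lab m a (i :: p) A →
    V n f (arr n (i :: p) ⟨cnt, A⟩) ≤
      KE a (fun y s => WW n f (i :: p) p cnt A m y s) + TE a (fun s => RR n f (i :: p) p A m s)

/-! ### Job ROOT -/

/-- The start: one frog at the root, which is visited. -/
noncomputable def start : Cf := ⟨dl [] 1, {[]}⟩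

def S_ROOT : Prop := ∃ C : ℝ≥0∞, C ≠ ⊤ ∧ ∀ n f : ℕ, 1 ≤ n → V n f start ≤ C

/-! ### The exploration (jobs PATH and AVG) -/

/-- Steps of a walk: `(j, b)`: from the root to `j`; elsewhere up if `b = 0`, otherwise to the
child `j`. -/
def stp (z : Vx) (a : Fin 4 × Fin 5) : Vx :=
  if z = [] then [a.1] else if a.2 = 0 then z.tail else a.1 :: z

/-- State of the exploration: frogs (name, position, number of steps made) on the move, woken
vertices, number of steps to the root. -/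
structure Ex : Type where
  /-- The frogs on the move. -/
  q : List (Vx × Vx × ℕ)
  /-- The woken vertices. -/
  vis : List Vx
  /-- The number of steps to the root. -/
  cn : ℕ

/-- One frog `w` at `z` after `k` steps moves to `z'`; `q` are the other frogs. -/
def adv (n : ℕ) (w : Vx) (k : ℕ) (z' : Vx) (q : List (Vx × Vx × ℕ)) (vis : List Vx) (cn : ℕ) : Ex :=
  if n ≤ z'.length then ⟨q, vis, cn⟩
  else if z' ∈ vis then ⟨(w, z', k + 1) :: q, vis, cn + if z' = [] then 1 else 0⟩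
  else ⟨(w, z', k + 1) :: (z', z', 0) :: q, z' :: vis, cn⟩

/-- The exploration with the steps `x`; every frog makes at most `L` steps, the tree is cut at
generation `n`; the second argument is fuel. -/
def expl (n L : ℕ) (x : Vx → ℕ → Fin 4 × Fin 5) : ℕ → Ex → Ex
  | 0, t => t
  | m + 1, t =>
    match t.q with
    | [] => t
    | (w, z, k) :: q =>
      if L ≤ k then expl n L x m ⟨q, t.vis, t.cn⟩
      else expl n L x m (adv n w k (stp z (x w k)) q t.vis t.cn)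

/-- Start of the exploration. -/
def ex0 : Ex := ⟨[([], [], 0)], [[]], 0⟩

/-- Enough fuel. -/
def fuel (n : ℕ) : ℕ := 4 ^ n * (n + 1) + 1

/-- The awake frogs and their visits to the root; `S w k` is the position of the frog `w` after
`k` steps. -/
def Hits (S : Vx → ℕ → Vx) (q : Vx × ℕ) : Prop :=
  (∀ A : Set Vx, [] ∈ A → (∀ v ∈ A, ∀ k, S v k ∈ A) → q.1 ∈ A) ∧ S q.1 q.2 = []

/-- Job PATH: the exploration finds all visits of the root. -/
def S_PATH : Prop := ∀ (x : Vx → ℕ → Fin 4 × Fin 5) (S : Vx → ℕ → Vx), (∀ v, S v 0 = v) →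
  (∀ v k, S v (k + 1) = stp (S v k) (x v k)) →
  ∀ F : Finset (Vx × ℕ), (∀ q ∈ F, Hits S q) →
    ∃ N, ∀ n, N ≤ n → F.card ≤ (expl n n x (fuel n) ex0).cn + 1

/-- Job AVG: the expected number of the visits found is at most the value of the start. -/
def S_AVG : Prop := ∀ (Ω : Type) [MeasurableSpace Ω] (P : Measure Ω) [IsProbabilityMeasure P]
  (ξ : Vx → ℕ → Ω → Fin 4 × Fin 5), (∀ v k, Measurable (ξ v k)) →
  iIndepFun (fun p : Vx × ℕ => ξ p.1 p.2) P →
  (∀ v k (c : Fin 4 × Fin 5), P (ξ v k ⁻¹' {c}) = 1 / 20) →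
  ∀ n L m : ℕ, 1 ≤ n →
    ∫⁻ ω, ((expl n L (fun w k => ξ w k ω) m ex0).cn : ℝ≥0∞) ∂P ≤ V n m start

/-- The theorem (question Q2). -/
def S_MAIN : Prop := ∀ (Ω : Type) [MeasurableSpace Ω] (P : Measure Ω) [IsProbabilityMeasure P]
  (ξ : Vx → ℕ → Ω → Fin 4 × Fin 5), (∀ v k, Measurable (ξ v k)) →
  iIndepFun (fun p : Vx × ℕ => ξ p.1 p.2) P →
  (∀ v k (c : Fin 4 × Fin 5), P (ξ v k ⁻¹' {c}) = 1 / 20) →
  ∀ (S : Vx → ℕ → Ω → Vx), (∀ v ω, S v 0 ω = v) →
  (∀ v k ω, S v (k + 1) ω = stp (S v k ω) (ξ v k ω)) →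
  ∀ᵐ ω ∂P, {q : Vx × ℕ | Hits (fun v k => S v k ω) q}.Finite

/-- Job FIN. -/
def S_FINAL : Prop := S_ROOT → S_PATH → S_AVG → S_MAIN

end Pool.Agent.U319.FR
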