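import Mathlib

/-!
# Frog model on the rooted 4-ary tree: the table (second version)

`K a s y` (scale `SC`): `y` frogs sent up, new label `s`, old label `a`. Placeholder values; use
only `S_TAB`.
-/

set_option autoImplicit false

namespace Pool.Agent.U319.FR2

/-- Scale. -/
def SC : ℕ := 10000000000

/-- The table. -/
def tab : List (List (List ℕ)) := []

/-- The kernel. -/
def K (a s y : ℕ) : ℕ := ((tab.getD a []).getD (s - 1) []).getD y 0

end Pool.Agent.U319.FR2
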