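import Pool.Agent.U319.FR.StmD
import Pool.Agent.U319.FR.Tab2

/-!
# Frog model on the rooted 4-ary tree: statements of the parts, second version

The value `VI` of a configuration without restriction of the number of steps is concave in the
number of frogs at a vertex (`S_CONC`), and the worst configuration with a given label is
unique up to automorphisms (`S_CAN`), so the tables need no remainder terms.
Do not unfold `K`, `SC`, `tab`: use only `S_TAB`.
-/

set_option autoImplicit false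

open scoped ENNReal
open Finset Pool.Agent.U319.FR

namespace Pool.Agent.U319.FR2

/-- The value without restriction of the number of steps. -/
noncomputable def VI (n : ℕ) (η : Cf) : ℝ≥0∞ := ⨆ f : ℕ, V n f η

/-! ### Job POT: potentials -/

/-- `mv` without the reward. -/
noncomputable def av (n : ℕ) (g : Cf → ℝ≥0∞) : Vx → Cf → ℝ≥0∞
  | [], η => ∑ j : Fin 4, (1 / 4) * g (arr n [j] (rmv [] η))
  | i :: p, η => (1 / 5) * g (arr n p (rmv (i :: p) η)) +
      ∑ j : Fin 4, (1 / 5) * g (arr n (j :: i :: p) (rmv (i :: p) η))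

/-- Potentials. With `h z = 2 * (n - z.length) + 2` (natural subtraction; `1 + ` mean of `h` after
one step `≤ h`, a step to a vertex of generation `≥ n` giving `0`) take
`G n η = ∑' z, η.cnt z * h z + ∑' (z ∉ η.vis, z.length < n), h z` and `G2 = K0 * G` with
`K0 n η = (∑' z, η.cnt z + number of the z ∉ η.vis with z.length < n) * (2 * n + 2) ≥ G n η`, which
does not increase. -/
def S_POT : Prop := ∃ G G2 : ℕ → Cf → ℝ≥0∞,
  (∀ n f η, V n f η ≤ G n η) ∧
  (∀ n η u, 0 < η.cnt u → av n (G2 n) u η + G n η ≤ G2 n η) ∧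
  (∀ n η, (Function.support η.cnt).Finite → G n η ≠ ⊤ ∧ G2 n η ≠ ⊤)

/-- The value is finite for finitely many frogs (from S_POT). -/
def S_VIF : Prop := ∀ (n : ℕ) (cnt : Vx → ℕ) (A : Set Vx), (Function.support cnt).Finite →
  VI n ⟨cnt, A⟩ ≠ ⊤

/-! ### Job CONC -/

/-- Concavity in the number of frogs at the vertex `x` (uses S_POT, S_VSTEP, S_VSUB, S_VMONO,
S_VUP). Put `X η = VI (η + 2 δ_x) + VI η`, `Y η = 2 VI (η + δ_x)`. If `η` has no frogs, `X ≤ Y` by
S_VSUB. In general `X ≤ Y + 2 VI η ≤ Y + 2 G η` by S_VSUB and S_VMONO. If `η` has a frog at `u`: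
`X η ≤ 2 r + av X u η` (S_VSTEP) and `2 r + av Y u η ≤ Y η` (definition of `V`), `r` the expected
reward of the move. By induction on `M`: `M * X η ≤ M * Y η + 2 * G2 η`; hence `X η ≤ Y η`. -/
def S_CONC : Prop := ∀ (n : ℕ) (cnt : Vx → ℕ) (A : Set Vx) (x : Vx),
  (Function.support cnt).Finite →
  VI n ⟨fun z => cnt z + dl x 2 z, A⟩ + VI n ⟨cnt, A⟩ ≤
    2 * VI n ⟨fun z => cnt z + dl x 1 z, A⟩

/-! ### Job INV -/

/-- Only the vertices of generations less than `n` matter. -/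
def S_CUT : Prop := ∀ (n f : ℕ) (cnt : Vx → ℕ) (A B : Set Vx),
  (∀ z : Vx, z.length < n → (z ∈ A ↔ z ∈ B)) → V n f ⟨cnt, A⟩ = V n f ⟨cnt, B⟩

/-- The automorphism of the tree which permutes the subtrees of the children of `w`. -/
def flip (w : Vx) (π : Equiv.Perm (Fin 4)) : Vx → Vx
  | [] => []
  | j :: z => if z = w then π j :: z else j :: flip w π z

/-- Invariance. -/
def S_INV : Prop := ∀ (w : Vx) (π : Equiv.Perm (Fin 4)) (n f : ℕ) (cnt : Vx → ℕ) (B : Set Vx),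
  (∀ (j : Fin 4) (z : Vx), (j :: w) <:+ z → cnt z = 0) →
  V n f ⟨cnt, {z | flip w π z ∈ B}⟩ = V n f ⟨cnt, B⟩

/-- Labels after a permutation of the children of `w`. -/
def S_FLAB : Prop := ∀ (m s : ℕ) (w u : Vx) (j : Fin 4) (π : Equiv.Perm (Fin 4)) (B : Set Vx),
  Lab m s (u ++ j :: w) {z | flip w π z ∈ B} ↔ Lab m s (u ++ π j :: w) B

/-! ### Job CAN -/

/-- The smallest visited set with label `s` at `w`: the vertex `w` and rays from `s - 1` of its
children. -/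
def Can (s : ℕ) (w : Vx) : Set Vx :=
  {z | 1 ≤ s ∧ (z = w ∨ ∃ (j : Fin 4) (t : ℕ), (j : ℕ) + 1 < s ∧
    z = List.replicate t (0 : Fin 4) ++ j :: w)}

/-- `A` outside the subtree of `w`, `Can s w` inside. -/
def Rep (A : Set Vx) (w : Vx) (s : ℕ) : Set Vx := {z | z ∈ A ∧ ¬ (w <:+ z)} ∪ Can s w

/-- `A` outside the subtree of `v`, `v`, and the canonical sets with labels `c` at the children. -/
def Rpc (A : Set Vx) (v : Vx) (c : Fin 4 → ℕ) : Set Vx :=
  {z | (z ∈ A ∧ ¬ (v <:+ z)) ∨ z = v ∨ ∃ i, z ∈ Can (c i) (i :: v)}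

/-- The canonical set is the worst one with its label. -/
def S_CAN : Prop := ∀ (m n : ℕ) (w : Vx), w.length + m = n → ∀ a ≤ 5, ∀ (cnt : Vx → ℕ)
  (B : Set Vx), (∀ (j : Fin 4) (z : Vx), (j :: w) <:+ z → cnt z = 0) → Lab m a w B →
  ∀ f, V n f ⟨cnt, B⟩ ≤ V n f ⟨cnt, Rep B w a⟩

/-- Labels of sets containing the canonical set. -/
def S_CLAB : Prop := ∀ (m a : ℕ) (w : Vx) (B : Set Vx), a ≤ 5 → Can a w ⊆ B → Lab m a w B

/-! ### Tables -/

/-- Average over the outcomes `y` (frogs sent up), `s` (new label) of an entry into a subtree with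
label `a`. -/
noncomputable def KV (a : ℕ) (g : ℕ → ℕ → ℝ) : ℝ :=
  ∑ s ∈ Icc 1 5, ∑ y ∈ range 6, (K a s y : ℝ) / SC * g y s

/-- `KV` with values in `[0, ∞]`. -/
noncomputable def KE (a : ℕ) (g : ℕ → ℕ → ℝ≥0∞) : ℝ≥0∞ :=
  ∑ s ∈ Icc 1 5, ∑ y ∈ range 6, (K a s y : ℝ≥0∞) / (SC : ℝ≥0∞) * g y s

/-- Mean number of frogs sent up. -/
noncomputable def Mn (a : ℕ) : ℝ := KV a (fun y _ => (y : ℝ))

/-- Facts on the tables (job TAB, by computation). -/
def S_TAB : Prop := 0 < SC ∧ (∀ a ≤ 5, ∑ s ∈ Icc 1 5, ∑ y ∈ range 6, K a s y = SC) ∧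
  (∀ a ≤ 5, Mn a ≤ 98 / 100)

/-! ### Job RUN: the certificate -/

/-- Value functions at a vertex: `H k c e` with `k` frogs at the vertex, labels `c` of the
children, `e` frogs sent up; `W e s` at the end. -/
structure Sys (H : ℕ → (Fin 4 → ℕ) → ℕ → ℝ) (W : ℕ → ℕ → ℝ) : Prop where
  symm : ∀ k c e (π : Equiv.Perm (Fin 4)), (∀ i, c i ≤ 5) → H k (c ∘ π) e = H k c e
  step : ∀ k c e, (∀ i, c i ≤ 5) → H (k + 1) c e ≤ (1 / 5) * H k c (e + 1) +
    (1 / 5) * ∑ i, KV (c i) (fun y s => H (k + y) (Function.update c i s) e)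
  mono : ∀ k c e, (∀ i, c i ≤ 5) → H k c e ≤ H (k + 1) c e
  conk : ∀ k c e, (∀ i, c i ≤ 5) → H (k + 2) c e + H k c e ≤ 2 * H (k + 1) c e
  cone : ∀ k c e, (∀ i, c i ≤ 5) → H k c (e + 2) + H k c e ≤ 2 * H k c (e + 1)
  fin : ∀ c e, (∀ i, c i ≤ 5) → H 0 c e ≤ W e (phi c)
  ins : ∀ e s, 1 ≤ s → s ≤ 5 → W e s ≤ H 0 (c0 s) e
  top : ∀ e s, 1 ≤ s → s ≤ 5 → W 0 5 ≤ W e s
  low : ∀ k c e, (∀ i, c i ≤ 5) → H 0 (fun _ => 5) 0 ≤ H k c e

def S_RUN : Prop := ∀ (H : ℕ → (Fin 4 → ℕ) → ℕ → ℝ) (W : ℕ → ℕ → ℝ), Sys H W →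
  ∀ a ≤ 5, H (k0 a) (c0 a) 0 ≤ KV a W

/-! ### Domination, by induction on the number `m` of generations below `v` -/

open Classical in
/-- Value of `e` frogs sent up to the parent `p` (with the `cnt` frogs elsewhere), the subtree of
`v` having label `s` (canonical). Frogs arriving at the root count one. -/
noncomputable def WW (n : ℕ) (v p : Vx) (cnt : Vx → ℕ) (A : Set Vx) (e s : ℕ) : ℝ≥0∞ :=
  (if p = [] then (e : ℝ≥0∞) else 0) + VI n ⟨fun x => cnt x + dl p e x, Rep A v s⟩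

open Classical in
/-- Value of `k` frogs at `v` and `e` frogs sent up, labels `c` of the children of `v`
(canonical). -/
noncomputable def HH (n : ℕ) (v p : Vx) (cnt : Vx → ℕ) (A : Set Vx) (k : ℕ) (c : Fin 4 → ℕ)
    (e : ℕ) : ℝ≥0∞ :=
  (if p = [] then (e : ℝ≥0∞) else 0) +
    VI n ⟨fun x => cnt x + dl v k x + dl p e x, Rpc A v c⟩

/-- A frog arrives at `v = i :: p` (child of the visited vertex `p`); there are no frogs in the
subtree of `v`, which has label `a`. -/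
def DOMat (m : ℕ) : Prop := ∀ (n : ℕ) (i : Fin 4) (p : Vx), p.length + 1 + m = n →
  ∀ (cnt : Vx → ℕ) (A : Set Vx), (Function.support cnt).Finite → p ∈ A →
  (∀ z, (i :: p) <:+ z → cnt z = 0) → ∀ a ≤ 5, Lab m a (i :: p) A →
    VI n (arr n (i :: p) ⟨cnt, A⟩) ≤ KE a (fun y s => WW n (i :: p) p cnt A y s)

def S_DOM : Prop := ∀ m, DOMat m

/-- Job SYS (uses S_TAB, S_LAB, S_VIF, S_VMONO, S_VSTEP, S_CONC, S_INV, S_CAN, S_CLAB). -/
def S_SYS : Prop := ∀ m, DOMat m → ∀ (n : ℕ) (i : Fin 4) (p : Vx),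
  p.length + 1 + (m + 1) = n → ∀ (cnt : Vx → ℕ) (A : Set Vx), (Function.support cnt).Finite →
  p ∈ A → (∀ z, (i :: p) <:+ z → cnt z = 0) →
  Sys (fun k c e => (HH n (i :: p) p cnt A k c e).toReal)
    (fun e s => (WW n (i :: p) p cnt A e s).toReal)

/-- Job DSTEP (uses S_TAB, S_LAB, S_VIF, S_VMONO, S_VUP, S_CUT, S_CAN, S_RUN, S_SYS). -/
def S_DSTEP : Prop := DOMat 0 ∧ ∀ m, DOMat m → DOMat (m + 1)

theorem dom_of (h : S_DSTEP) : S_DOM := by
  intro m
  induction m with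
  | zero => exact h.1
  | succ m ih => exact h.2 m ih

/-- Job ROOT: `S_ROOT` of `Stm` from S_DOM, S_TAB, S_CLAB, S_VIF, S_VMONO, S_VSTEP, S_VSUB. -/
def S_ROOT2 : Prop := S_DOM → S_ROOT

end Pool.Agent.U319.FR2
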