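import Pool.Agent.U319.FR.Stm

/-!
# Statements of the parts of the domination lemma `S_DOM`
-/

set_option autoImplicit false

open scoped ENNReal
open Finset

namespace Pool.Agent.U319.FR

/-- Job LAB: facts on labels. -/
def S_LAB : Prop :=
  (∀ m s s' v A, s' ≤ s → Lab m s v A → Lab m s' v A) ∧
  (∀ m s v A B, (∀ z, v <:+ z → (z ∈ A ↔ z ∈ B)) → (Lab m s v A ↔ Lab m s v B)) ∧
  (∀ m a v A, 1 ≤ a → a ≤ 5 → Lab (m + 1) a v A →
    v ∈ A ∧ ∃ π : Equiv.Perm (Fin 4), ∀ j, Lab m (c0 a j) (π j :: v) A) ∧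
  (∀ m (c : Fin 4 → ℕ) (π : Equiv.Perm (Fin 4)) v B, v ∈ B →
    (∀ j, Lab m (c j) (π j :: v) B) → Lab (m + 1) (phi c) v B)

/-- Visited sets extending `A` in the subtree of `v`, the children having labels `c` in some
order. -/
def Env (v : Vx) (A : Set Vx) (m : ℕ) (c : Fin 4 → ℕ) (B : Set Vx) : Prop :=
  Out v A B ∧ v ∈ B ∧ ∃ π : Equiv.Perm (Fin 4), ∀ j, Lab m (c j) (π j :: v) B

open Classical in
/-- Value of `k` frogs at `v` and `e` frogs sent up, labels `c` of the children of `v`. -/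
noncomputable def HH (n f : ℕ) (v p : Vx) (cnt : Vx → ℕ) (A : Set Vx) (m k : ℕ) (c : Fin 4 → ℕ)
    (e : ℕ) : ℝ≥0∞ :=
  (if p = [] then (e : ℝ≥0∞) else 0) +
    ⨆ B : Set Vx, ⨆ _ : Env v A m c B, V n f ⟨fun x => cnt x + dl v k x + dl p e x, B⟩

/-- Value of one frog at `v`, the subtree of `v` having label `s`. -/
noncomputable def XX (n f : ℕ) (v : Vx) (A : Set Vx) (m s : ℕ) : ℝ≥0∞ :=
  ⨆ B : Set Vx, ⨆ _ : Out v A B ∧ v ∈ B ∧ Lab (m + 1) s v B, V n f ⟨dl v 1, B⟩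

/-- `S_DOM` for one `m`. -/
def DOMat (m : ℕ) : Prop := ∀ (n f : ℕ) (i : Fin 4) (p : Vx), p.length + 1 + m = n →
  ∀ (cnt : Vx → ℕ) (A : Set Vx), p ∈ A → (∀ z, (i :: p) <:+ z → cnt z = 0) →
  ∀ a ≤ 5, Lab m a (i :: p) A →
    V n f (arr n (i :: p) ⟨cnt, A⟩) ≤
      KE a (fun y s => WW n f (i :: p) p cnt A m y s) + TE a (fun s => RR n f (i :: p) p A m s)

/-- Job SYS (uses S_TAB, S_LAB, S_VFIN, S_VMONO, S_VSTEP, S_VSUB). -/
def S_SYS : Prop := ∀ m, DOMat m → ∀ (n f : ℕ) (i : Fin 4) (p : Vx),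
  p.length + 1 + (m + 1) = n → ∀ (cnt : Vx → ℕ) (A : Set Vx), p ∈ A →
  (∀ z, (i :: p) <:+ z → cnt z = 0) →
  Sys (fun k c e => (HH n f (i :: p) p cnt A m k c e).toReal)
    (fun e s => (WW n f (i :: p) p cnt A (m + 1) e s).toReal)
    (fun s => (XX n f (i :: p) A m s).toReal)
    (fun s => (RR n f (i :: p) p A (m + 1) s).toReal)

/-- Job DSTEP (uses S_TAB, S_LAB, S_VFIN, S_VMONO, S_VSUB, S_RUN, S_SYS): first
`XX s <= Mn s * RR s` by the argument with `D`, then the conclusion; and the case `m = 0`. -/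
def S_DSTEP : Prop := DOMat 0 ∧ ∀ m, DOMat m → DOMat (m + 1)

theorem dom_of (h : S_DSTEP) : S_DOM := by
  intro m
  have : DOMat m := by
    induction m with
    | zero => exact h.1
    | succ m ih => exact h.2 m ih
  exact this

end Pool.Agent.U319.FR
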